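import Pool.Agent.W_868bb7_h16c.CatC
import Pool.Agent.W_868bb7_h94.Stat

set_option autoImplicit false

/-!
# StatM: definitions for the statement of MatchingCriterion
-/

namespace T7n

open CategoryTheory MonoidalCategory T7 Pool.Agent.W_MP_868bb7_ag Pool.Agent.W_868bb7_h94

universe v u w

variable (K : Type w) [Field K] {C : Type u} [Category.{v} C] [MonoidalCategory C]
  [Preadditive C] [Linear K C] [SymmetricCategory C]
variable {M T : C} (P : Pairing M T)

/-- the `(2g-1)!!` perfect matchings `M^{⊗ 2g} ⟶ T^{⊗ g}` are linearly dependent over `K` -/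
def MDep (g : ℕ) : Prop :=
  ¬ LinearIndependent K (fun m : PM (Fin (2 * g)) => qm P g m)

variable [RightRigidCategory C]

/-- the five equivalent conditions for the type `(p | 2 r)` -/
def Criteria [Limits.HasBinaryBiproducts C] (p r : ℕ) : Prop :=
  List.TFAE
    [KimuraType K M p (2 * r),
      Signed K M p (2 * r) ∧ MDep K P ((p + 1) * (r + 1)),
      Signed K M p (2 * r) ∧ ∃ g : ℕ, g < (p + 3) * (r + 2) ∧ MDep K P g,
      Signed K M p (2 * r) ∧ Dep K M ((p + 1) * (2 * r + 1)),
      Signed K M p (2 * r) ∧ ∃ n : ℕ, n < (p + 2) * (2 * r + 2) ∧ Dep K M n]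

/-- if the matchings of `M` are dependent in some degree, then there are `a, b ≥ 1` with
`dim M = a + 1 - 2 b` such that they are dependent exactly in the degrees `g ≥ a b`, and
`(a, b) = (p + 1 + 2 k, r + 1 + k)` for some `k` if `Signed K M p (2 * r)` -/
def Quantised : Prop :=
  (∃ g : ℕ, MDep K P g) → ∃ a b : ℕ, 1 ≤ a ∧ 1 ≤ b ∧
    trU (𝟙 M) = ((a : K) + 1 - 2 * b) • 𝟙 (𝟙_ C) ∧
    (∀ g : ℕ, MDep K P g ↔ a * b ≤ g) ∧
    ∀ p r : ℕ, Signed K M p (2 * r) → ∃ k : ℕ, a = p + 1 + 2 * k ∧ b = r + 1 + k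

omit [RightRigidCategory C] in
/-- every linear relation between the matchings of `M'` holds for the matchings of `M` -/
def RelLE {M' T' : C} (P' : Pairing M' T') : Prop :=
  ∀ (g : ℕ) (f : PM (Fin (2 * g)) → K), ∑ m, f m • qm P' g m = 0 → ∑ m, f m • qm P g m = 0

/-- if `dim M' = dim M` and the matchings of `M` are dependent in every degree in which those of
`M'` are, then every relation between the matchings of `M'` holds for `M` -/
def Rigid {M' T' : C} (P' : Pairing M' T') : Prop :=
  trU (𝟙 M') = trU (𝟙 M) → (∀ g : ℕ, MDep K P' g → MDep K P g) → RelLE K P P'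

end T7n
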