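import Pool.Agent.W_868bb7_h16.Sys

set_option autoImplicit false

/-!
# MP_868bb7_ag, T7, theorem G: the relation system of the super space `K^(p|2r)`

Colours: `p` even colours and `r` pairs of odd colours `(k, true)`, `(k, false)`; `dual` exchanges the
two colours of a pair.  A matching `m` is compatible with the colouring `β` (`Cmp`) if
`β (m i) = dual (β i)`.  `kp β s` is the sign of `s` on the odd points if `s` preserves `β` and `0`
otherwise.  `InN p r x`: `∑ s, kp β s * x (s • m) = 0` for every colouring `β` and every compatible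
`m` (these are the relations between the matchings in the super space `K^(p|2r)`; nothing about
super spaces is used).
-/

namespace T7n

open Equiv T7

/-- colours: `p` even ones, `r` pairs of odd ones -/
abbrev Col (p r : ℕ) := Fin p ⊕ (Fin r × Bool)

/-- the dual colour -/
def dual {p r : ℕ} : Col p r → Col p r
  | .inl k => .inl k
  | .inr (k, b) => .inr (k, !b)

theorem dual_dual {p r : ℕ} (c : Col p r) : dual (dual c) = c := by
  rcases c with k | ⟨k, b⟩
  · rfl
  · simp [dual]

theorem isRight_dual {p r : ℕ} (c : Col p r) : (dual c).isRight = c.isRight := by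
  rcases c with k | ⟨k, b⟩ <;> rfl

/-- sign of a colour -/
def sgc {p r : ℕ} (c : Col p r) : ℤ := if c.isRight = true then -1 else 1

section

variable {α : Type*} {p r : ℕ}

/-- `m` is compatible with the colouring `β` -/
def Cmp (β : α → Col p r) (m : PM α) : Prop := ∀ i, β (m i) = dual (β i)

variable [Fintype α] [DecidableEq α]

/-- the sign of `s` on the points with `P`, zero if `s` does not preserve `P` -/
def sgO (P : α → Bool) (s : Perm α) : ℤ :=
  if h : ∀ i, P (s i) = P i then
    ((Perm.sign (s.subtypePerm (p := fun i => P i = true) (fun i => by rw [h i]) :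
      Perm {i // P i = true}) : ℤˣ) : ℤ)
  else 0

/-- the sign of `s` on the odd points if `s` preserves `β`, zero otherwise -/
def kp (β : α → Col p r) (s : Perm α) : ℤ :=
  if ∀ i, β (s i) = β i then sgO (fun i => (β i).isRight) s else 0

/-- `x` is in the kernel of all colourings -/
def InN {K : Type*} [Field K] (p r : ℕ) (x : PM α → K) : Prop :=
  ∀ (β : α → Col p r) (m : PM α), Cmp β m →
    ∑ s : Perm α, ((kp β s : ℤ) : K) * x (PM.map s m) = 0

theorem InN.add {K : Type*} [Field K] {x y : PM α → K} (hx : InN p r x) (hy : InN p r y) :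
    InN p r (x + y) := by
  intro β m hm
  have h1 := hx β m hm
  have h2 := hy β m hm
  simp only [Pi.add_apply, mul_add, Finset.sum_add_distrib]
  rw [h1, h2, add_zero]

theorem InN.zero {K : Type*} [Field K] : InN p r (0 : PM α → K) := by
  intro β m _
  simp

theorem InN.smul {K : Type*} [Field K] (c : K) {x : PM α → K} (hx : InN p r x) :
    InN p r (c • x) := by
  intro β m hm
  have h1 := hx β m hm
  have h2 : ∑ s : Perm α, ((kp β s : ℤ) : K) * (c • x) (PM.map s m) =
      c * ∑ s : Perm α, ((kp β s : ℤ) : K) * x (PM.map s m) := by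
    rw [Finset.mul_sum]
    refine Finset.sum_congr rfl fun s _ => ?_
    simp only [Pi.smul_apply, smul_eq_mul]
    ring
  rw [h2, h1, mul_zero]

end

/-- the matching `inl i - inr (s i)` of `α ⊕ α` -/
def bip {α : Type*} (s : Perm α) : PM (α ⊕ α) :=
  ⟨fun x => match x with
    | Sum.inl i => Sum.inr (s i)
    | Sum.inr i => Sum.inl (s⁻¹ i),
   fun x => by rcases x with i | i <;> simp,
   fun x => by rcases x with i | i <;> simp⟩

@[simp] theorem bip_inl {α : Type*} (s : Perm α) (i : α) :
    bip s (Sum.inl i) = Sum.inr (s i) := rfl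

@[simp] theorem bip_inr {α : Type*} (s : Perm α) (i : α) :
    bip s (Sum.inr i) = Sum.inl (s⁻¹ i) := rfl

theorem bip_inj {α : Type*} {s t : Perm α} (h : bip s = bip t) : s = t := by
  ext i
  have h1 : bip s (Sum.inl i) = bip t (Sum.inl i) := by rw [h]
  exact Sum.inr_injective h1

open Classical in
/-- the combination `∑ s, y s • bip s` -/
noncomputable def bipF {K : Type*} [Field K] {α : Type*} (y : Perm α → K) : PM (α ⊕ α) → K :=
  fun m => if h : ∃ s : Perm α, bip s = m then y h.choose else 0

theorem bipF_bip {K : Type*} [Field K] {α : Type*} (y : Perm α → K) (s : Perm α) :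
    bipF y (bip s) = y s := by
  have h : ∃ t : Perm α, bip t = bip s := ⟨s, rfl⟩
  rw [bipF, dif_pos h, bip_inj h.choose_spec]

theorem bipF_of_not {K : Type*} [Field K] {α : Type*} (y : Perm α → K) (m : PM (α ⊕ α))
    (h : ¬ ∃ s : Perm α, bip s = m) : bipF y m = 0 := by
  rw [bipF, dif_neg h]

end T7n
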