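import Pool.Agent.W_868bb7_t7n.CombG
import Pool.Agent.W_868bb7_h16c.Rel
import Pool.Agent.W_868bb7_h60.MJ
import Pool.Agent.W_868bb7_h60.KdA
import Pool.Agent.W_868bb7_h60.Cs
import Pool.Agent.W_868bb7_h94.Defs

set_option autoImplicit false

/-!
# BipC: relations between bipartite matchings are relations between permutations
-/

namespace T7n

open CategoryTheory MonoidalCategory Equiv T7 Pool.Agent.W_MP_868bb7_ag Pool.Agent.W_868bb7_h64
  Pool.Agent.W868h60 Pool.Agent.W_868bb7_h94

universe v u w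

section

variable {C : Type u} [Category.{v} C] [MonoidalCategory C] [SymmetricCategory C]
variable {M T : C} (P : Pairing M T)

/-- the zigzag in the other form -/
theorem zig_cs : (P.c ≫ (β_ M M).hom) ▷ M ≫ (α_ M M M).hom ≫ M ◁ P.q = (β_ T M).hom := by
  have h1 : M ◁ P.q = (β_ M (M ⊗ M)).hom ≫ P.q ▷ M ≫ (β_ T M).hom := by
    have h2 : M ◁ P.q ≫ (β_ M T).hom = (β_ M (M ⊗ M)).hom ≫ P.q ▷ M :=
      BraidedCategory.braiding_naturality_right M P.q
    rw [← Category.assoc, ← h2, Category.assoc, SymmetricCategory.symmetry, Category.comp_id]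
  have h3 : (β_ M (M ⊗ M)).hom = (α_ M M M).inv ≫ (β_ M M).hom ▷ M ≫ (α_ M M M).hom ≫
      M ◁ (β_ M M).hom ≫ (α_ M M M).inv := by
    rw [BraidedCategory.braiding_tensor_right_hom]
  have h4 : (β_ M M).hom ▷ M ≫ (β_ M M).hom ▷ M = 𝟙 _ := by
    rw [← MonoidalCategory.comp_whiskerRight, SymmetricCategory.symmetry,
      MonoidalCategory.id_whiskerRight]
  rw [h1, h3, MonoidalCategory.comp_whiskerRight]
  simp only [Category.assoc, Iso.hom_inv_id_assoc]
  rw [reassoc_of% h4]
  have h5 := zig2 P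
  have h6 : P.c ▷ M ≫ (α_ M M M).hom ≫ M ◁ (β_ M M).hom ≫ (α_ M M M).inv ≫ P.q ▷ M ≫
      (β_ T M).hom = (P.c ▷ M ≫ (α_ M M M).hom ≫ M ◁ (β_ M M).hom ≫ (α_ M M M).inv ≫
        P.q ▷ M) ≫ (β_ T M).hom := by simp only [Category.assoc]
  rw [h6, h5, Category.id_comp]

theorem qa_eq (r : ℕ) : qa P.q r = qs P r := by
  induction r with
  | zero => rfl
  | succ r ih =>
    rw [qs_succ]
    change (α_ M M (pow M (2 * r))).inv ≫ (P.q ⊗ₘ qa P.q r) = _
    rw [ih]

theorem ms_adj (n : ℕ) (x : Fin (2 * n)) : ms n x = adj n x := by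
  induction n with
  | zero => exact Fin.elim0 x
  | succ n ih =>
    have key : ∀ x : Fin (2 * n + 2), ups (ms n) x = (adj (n + 1) : Perm (Fin (2 * n + 2))) x := by
      intro x
      refine Fin.cases ?_ (fun y => ?_) x
      · rw [ups_zero]
        exact (adj_zero n).symm
      · refine Fin.cases ?_ (fun z => ?_) y
        · change ups (ms n) 1 = _
          rw [ups_one]
          exact (adj_one n).symm
        · rw [ups_succ, ih]
          exact (adj_succ n z).symm
    exact key x

/-- the bijection `inl i ↦ 2 i`, `inr i ↦ 2 i + 1` -/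
def eB (n : ℕ) : Fin n ⊕ Fin n ≃ Fin (2 * n) := (sumE n n).trans (piE n)

theorem sumE_bip (n : ℕ) (z : Fin n ⊕ Fin n) : sumE n n (bip 1 z) = blk n (sumE n n z) := by
  rcases z with i | i
  · apply Fin.ext
    rw [bip_inl]
    have h1 := JoinAct_inr n n i
    have h2 := JoinAct_inl n n i
    change (sumE n n (Sum.inr i)).val = _
    rw [h1]
    have h3 : (sumE n n (Sum.inl i)).val < n := by rw [h2]; exact i.isLt
    change _ = (if h : (sumE n n (Sum.inl i)).val < n then _ else _ : Fin (n + n)).val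
    rw [dif_pos h3]
    change _ = (sumE n n (Sum.inl i)).val + n
    rw [h2]
  · apply Fin.ext
    rw [bip_inr]
    have h1 := JoinAct_inr n n i
    have h2 := JoinAct_inl n n i
    change (sumE n n (Sum.inl i)).val = _
    rw [h2]
    have h3 : ¬ (sumE n n (Sum.inr i)).val < n := by rw [h1]; omega
    change _ = (if h : (sumE n n (Sum.inr i)).val < n then _ else _ : Fin (n + n)).val
    rw [dif_neg h3]
    change _ = (sumE n n (Sum.inr i)).val - n
    rw [h1]
    omega

theorem eB_ms (n : ℕ) : PM.map (eB n) (bip 1) = ms n := by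
  refine PM.ext fun x => ?_
  rw [PM.map_apply, ms_adj]
  obtain ⟨z, rfl⟩ := (eB n).surjective x
  rw [Equiv.symm_apply_apply]
  unfold eB
  rw [Equiv.trans_apply, Equiv.trans_apply, sumE_bip, piE_blk]

theorem bip_conj {α : Type} (σ τ : Perm α) :
    PM.map (Equiv.Perm.sumCongr σ τ) (bip 1) = bip (τ * σ⁻¹) := by
  refine PM.ext fun x => ?_
  rw [PM.map_apply]
  rcases x with i | i
  · simp [Perm.sumCongr, bip_inl]
  · simp [Perm.sumCongr, bip_inr]

/-- `σ` on the even, `τ` on the odd places -/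
def gB (n : ℕ) (σ τ : Perm (Fin n)) : Perm (Fin (2 * n)) :=
  (eB n).permCongr (Equiv.Perm.sumCongr σ τ)

theorem map_gB (n : ℕ) (σ τ : Perm (Fin n)) :
    PM.map (gB n σ τ) (ms n) = PM.map (eB n) (bip (τ * σ⁻¹)) := by
  rw [← eB_ms, ← bip_conj, PM.map_map, PM.map_map]
  congr 2
  ext z
  simp [gB]

theorem gB_inv (n : ℕ) (σ τ : Perm (Fin n)) : (gB n σ τ)⁻¹ = gB n σ⁻¹ τ⁻¹ := by
  rw [inv_eq_iff_mul_eq_one]
  ext x
  simp [gB]

theorem actE_gB (n : ℕ) (σ τ : Perm (Fin n)) :
    actE M (piE n) ≫ act M (2 * n) (gB n σ τ) = act M (n + n) (jn n n (σ, τ)) ≫ actE M (piE n) := by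
  rw [actE_act', actE_act]
  congr 1
  ext x
  rw [Equiv.trans_apply, Equiv.trans_apply, JoinAct_apply]
  unfold gB eB
  simp

/-- the composition of the two reorderings -/
noncomputable def RO (M : C) (n : ℕ) : pow M n ⊗ pow M n ⟶ pow M (2 * n) :=
  (J M n n).hom ≫ actE M (piE n)

theorem RO_act (n : ℕ) (σ τ : Perm (Fin n)) :
    RO M n ≫ act M (2 * n) (gB n σ τ) = (act M n σ ⊗ₘ act M n τ) ≫ RO M n := by
  unfold RO
  rw [Category.assoc, actE_gB, ← Category.assoc, ← act_J, Category.assoc]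

theorem RO_cancel (n : ℕ) {Z : C} (f g : pow M (2 * n) ⟶ Z) (h : RO M n ≫ f = RO M n ≫ g) :
    f = g := by
  unfold RO at h
  rw [Category.assoc, Category.assoc] at h
  have h1 := congrArg (fun t => (J M n n).inv ≫ t) h
  simp only [Iso.inv_hom_id_assoc] at h1
  have h2 := congrArg (fun t => actE M (piE n).symm ≫ t) h1
  simp only [← Category.assoc] at h2
  have h3 : actE M (piE n).symm ≫ actE M (piE n) = 𝟙 _ := by
    have := actE_symm M (piE n).symm
    rwa [Equiv.symm_symm] at this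
  rw [h3, Category.id_comp, Category.id_comp] at h2
  exact h2

end

section

variable {C : Type u} [Category.{v} C] [MonoidalCategory C] [SymmetricCategory C]
  [Preadditive C] [MonoidalPreadditive C]
variable {M T : C} (P : Pairing M T)

include P in
theorem faith_T : Faith T := fun f h => T_faithful P f h

/-- self-duality -/
def toSD : SD M T where
  q := P.q
  c := P.c ≫ (β_ M M).hom
  qs := P.q_symm
  cs := cs_of_zig (faith_T P) P.T_symm P.q (P.c ≫ (β_ M M).hom) P.q_symm (zig_cs P)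
  zig := zig_cs P

theorem SDp_eq (n : ℕ) : RO M n ≫ qs P n = (SDp (toSD P) n).q := by
  have h := qb_J (toSD P) n
  unfold qb at h
  rw [← h]
  unfold RO
  rw [Category.assoc, ← qa_eq]
  rfl

/-- non-degeneracy -/
theorem SDp_nd (n : ℕ) (F : pow M n ⟶ pow M n) (h : (F ▷ pow M n) ≫ (SDp (toSD P) n).q = 0) :
    F = 0 := by
  set d := SDp (toSD P) n with hd
  have h1 : pow M n ◁ F ≫ d.q = 0 := by
    rw [← d.qs]
    have h2 : pow M n ◁ F ≫ (β_ (pow M n) (pow M n)).hom =
        (β_ (pow M n) (pow M n)).hom ≫ F ▷ pow M n :=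
      BraidedCategory.braiding_naturality_right (pow M n) F
    rw [← Category.assoc, h2, Category.assoc, h, Limits.comp_zero]
  have h3 : pow T n ◁ F ≫ (β_ (pow T n) (pow M n)).hom = 0 := by
    rw [← d.zig]
    have h4 : pow T n ◁ F ≫ d.c ▷ pow M n = d.c ▷ pow M n ≫ (pow M n ⊗ pow M n) ◁ F :=
      MonoidalCategory.whisker_exchange d.c F
    rw [← Category.assoc, h4, Category.assoc]
    have h5 : (pow M n ⊗ pow M n) ◁ F ≫ (α_ (pow M n) (pow M n) (pow M n)).hom =
        (α_ (pow M n) (pow M n) (pow M n)).hom ≫ pow M n ◁ pow M n ◁ F := by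
      rw [MonoidalCategory.associator_naturality_right]
    rw [reassoc_of% h5, ← MonoidalCategory.whiskerLeft_comp, h1,
      MonoidalPreadditive.whiskerLeft_zero, Limits.comp_zero, Limits.comp_zero]
  have h6 : pow T n ◁ F = 0 := by
    have h7 := congrArg (fun t => t ≫ (β_ (pow M n) (pow T n)).hom) h3
    simp only [Category.assoc, SymmetricCategory.symmetry, Category.comp_id,
      Limits.zero_comp] at h7
    exact h7
  exact faith_pow (faith_T P) n F h6

/-- invariance -/
theorem SDp_inv (n : ℕ) (σ : Perm (Fin n)) :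
    (act M n σ ⊗ₘ act M n σ) ≫ (SDp (toSD P) n).q = (SDp (toSD P) n).q := by
  rw [← SDp_eq, ← Category.assoc, ← RO_act, Category.assoc]
  congr 1
  apply act_stab
  rw [map_gB, mul_inv_cancel, eB_ms]

theorem SDp_act (n : ℕ) (σ : Perm (Fin n)) :
    (pow M n ◁ act M n σ⁻¹) ≫ (SDp (toSD P) n).q = (act M n σ ▷ pow M n) ≫ (SDp (toSD P) n).q := by
  have h := SDp_inv P n σ
  conv_lhs => rw [← h]
  rw [← Category.assoc, ← id_tensorHom, tensorHom_comp_tensorHom, ← act_mul, mul_inv_cancel,
    act_one, Category.id_comp, tensorHom_id]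

end

section

variable {C : Type u} [Category.{v} C] [MonoidalCategory C] [SymmetricCategory C]
  [Preadditive C] {K : Type w} [Field K] [Linear K C] [MonoidalPreadditive C]
  [MonoidalLinear K C]
variable {M T : C} (P : Pairing M T)

omit [MonoidalPreadditive C] [MonoidalLinear K C] [Preadditive C] [Linear K C] in
theorem sum_bipF {α : Type} [Fintype α] [DecidableEq α] {V : Type*} [AddCommGroup V] [Module K V]
    (y : Perm α → K) (F : PM (α ⊕ α) → V) : ∑ m, bipF y m • F m = ∑ s, y s • F (bip s) := by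
  classical
  symm
  rw [← Finset.sum_subset (Finset.subset_univ (Finset.univ.image (bip : Perm α → PM (α ⊕ α))))]
  · rw [Finset.sum_image fun s _ t _ h => bip_inj h]
    exact Finset.sum_congr rfl fun s _ => by rw [bipF_bip]
  · intro m _ hm
    rw [bipF_of_not, zero_smul]
    rintro ⟨s, hs⟩
    exact hm (Finset.mem_image.2 ⟨s, Finset.mem_univ _, hs⟩)

theorem RO_sum (n : ℕ) (y : Perm (Fin n) → K) :
    RO M n ≫ ∑ m, (T7.tr (eB n) (bipF y)) m • qm P n m =
      (Phi K M n y ▷ pow M n) ≫ (SDp (toSD P) n).q := by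
  have h1 : ∑ m, (T7.tr (eB n) (bipF y)) m • qm P n m =
      ∑ s, y s • qm P n (PM.map (eB n) (bip s)) := by
    rw [← sum_bipF y (fun m => qm P n (PM.map (eB n) m))]
    refine Fintype.sum_equiv (PM.map (eB n)).symm _ _ fun m => ?_
    rw [tr_apply, PM.map_symm]
    congr 2
    rw [PM.map_map, Equiv.symm_trans_self]
    rfl
  have h2 : ∀ s : Perm (Fin n), RO M n ≫ qm P n (PM.map (eB n) (bip s)) =
      (act M n s ▷ pow M n) ≫ (SDp (toSD P) n).q := by
    intro s
    have h3 : PM.map (eB n) (bip s) = PM.map (gB n 1 s) (ms n) := by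
      rw [map_gB, inv_one, mul_one]
    rw [h3, qm_ms_map, gB_inv, ← Category.assoc, RO_act, Category.assoc, SDp_eq, inv_one,
      act_one, id_tensorHom, SDp_act]
  rw [h1, Preadditive.comp_sum]
  have h4 : Phi K M n y ▷ pow M n = ∑ s, y s • (act M n s ▷ pow M n) := by
    unfold Phi
    have h := (tensorRight (pow M n)).map_sum (fun e : Equiv.Perm (Fin n) => y e • act M n e)
      Finset.univ
    refine h.trans (Finset.sum_congr rfl fun e _ => ?_)
    exact (tensorRight (pow M n)).map_smul _ _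
  rw [h4, Preadditive.sum_comp]
  refine Finset.sum_congr rfl fun s _ => ?_
  rw [Linear.comp_smul, Linear.smul_comp, h2]

theorem bip_iff {δ : K} (hδ : P.c ≫ P.q = δ • 𝟙 T)
    (hunit : ∀ a : K, a • 𝟙 (𝟙_ C) = 0 → a = 0) (n : ℕ) (y : Perm (Fin n) → K) :
    bipF y ∈ (Rel P hδ hunit).R (Fin n ⊕ Fin n) ↔ Phi K M n y = 0 := by
  rw [mem_Rel P hδ hunit n (eB n)]
  constructor
  · intro h
    have h1 := RO_sum P n y
    rw [h, Limits.comp_zero] at h1
    exact SDp_nd P n _ h1.symm
  · intro h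
    apply RO_cancel
    rw [RO_sum, h, MonoidalPreadditive.zero_whiskerRight, Limits.zero_comp, Limits.comp_zero]

end

end T7n
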