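import Pool.Agent.W_868bb7_t7n.NBip
import Pool.Agent.W_868bb7_h16.Class

set_option autoImplicit false

/-!
# CombG: a relation below the second threshold gives the relations of `K^(p|2r)`
-/

namespace T7n

open Equiv T7

variable {K : Type*} [Field K] [CharZero K]

theorem exists_NS (p r : ℕ) (δ : K) (hδ : δ = (p : K) - 2 * r) :
    ∃ J : Sys K δ, ∀ (α : Type) [Fintype α] [DecidableEq α] (x : PM α → K),
      x ∈ J.R α ↔ InN p r x := by
  subst hδ
  exact ⟨NS K p r, fun α _ _ x => mem_NS x⟩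

/-- a non-zero vector of rectangular type with at most `p` rows is not in `InN p r` -/
theorem not_InN_of_type {a c p r : ℕ} (hap : a ≤ p) (v : PM (Fin a × Fin c) → K)
    (hv : IsType (Prod.fst : Fin a × Fin c → Fin a) v) (h0 : v ≠ 0) : ¬ InN p r v := by
  obtain ⟨m₀, hm₀, hv₀⟩ := hv.exists_inside h0
  refine not_InN_of_blocks hap Prod.fst v m₀ ?_ hm₀ hv₀
  intro s hs
  refine eq_of_agree hv.inv _ _ fun x _ => ⟨?_, hm₀ x⟩
  rw [PM.map_apply, hs, hm₀]
  have h1 := hs (s.symm x)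
  rw [apply_symm_apply] at h1
  exact h1.symm

/-- every combination of permutations with star sums `2 r - p` (`(p+1) (2r+1)` strands) is in a system
with the parameter `p - 2 r` that is non-zero in some size `< (p + 3) (2 r + 4)` -/
theorem bip_mem (p r : ℕ) (δ : K) (hδ : δ = (p : K) - 2 * r) (I : Sys K δ) {α₀ : Type}
    [Finite α₀] {f₀ : PM α₀ → K} (h₀ : f₀ ∈ I.R α₀) (hf₀ : f₀ ≠ 0)
    (hcard : Nat.card α₀ < (p + 3) * (2 * r + 4))
    (y : Perm (Fin ((p + 1) * (2 * r + 1))) → K)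
    (hy : ∀ (k : Fin ((p + 1) * (2 * r + 1))) (g : Perm (Fin ((p + 1) * (2 * r + 1)))),
      ∑ j ∈ Finset.univ.erase k, y (swap j k * g) = (((2 * r : ℕ) : K) - p) * y g) :
    bipF y ∈ I.R (Fin ((p + 1) * (2 * r + 1)) ⊕ Fin ((p + 1) * (2 * r + 1))) := by
  obtain ⟨J, hJ⟩ := exists_NS p r δ hδ
  have hyJ : bipF y ∈ J.R (Fin ((p + 1) * (2 * r + 1)) ⊕ Fin ((p + 1) * (2 * r + 1))) :=
    (hJ _ _).2 (InN_bip p (2 * r) p r le_rfl le_rfl rfl y hy)
  by_cases hJI : ∀ (α : Type) [Finite α], J.R α ≤ I.R α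
  · exact hJI _ hyJ
  exfalso
  have hIJ := (Sys.compare I J).resolve_right hJI
  push Not at hJI
  obtain ⟨a, c, ha, hc, hac, -, v, hv, hv', ht⟩ := Sys.key I J hIJ hJI
  obtain ⟨a₀, c₀, ha₀, hc₀, hac₀, hle, -, v₀, hv₀, hv₀', ht₀⟩ := Sys.first I h₀ hf₀
  have hv0 : v ≠ 0 := by
    rintro rfl
    exact hv' (Submodule.zero_mem _)
  have h1 : ¬ a ≤ p := fun h => not_InN_of_type h v ht hv0 ((hJ _ _).1 hv)
  have h2 : ¬ a₀ ≤ p := fun h =>
    not_InN_of_type h v₀ ht₀ hv₀' ((hJ _ _).1 (hIJ _ hv₀))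
  have h3 : a + 1 + 2 * r = c + p := by
    have : ((a + 1 + 2 * r : ℕ) : K) = ((c + p : ℕ) : K) := by
      push_cast
      rw [hac, hδ]
      ring
    exact_mod_cast this
  have h4 : a₀ + 1 + 2 * r = c₀ + p := by
    have : ((a₀ + 1 + 2 * r : ℕ) : K) = ((c₀ + p : ℕ) : K) := by
      push_cast
      rw [hac₀, hδ]
      ring
    exact_mod_cast this
  have h5 : Even c₀ := ClassA_even ht₀ hv₀' ⟨0, by omega⟩
  obtain ⟨k, hk⟩ := h5
  have h6 : a₀ < p + 3 := by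
    by_contra h
    push Not at h
    have h7 : 2 * r + 4 ≤ c₀ := by omega
    have h8 : (p + 3) * (2 * r + 4) ≤ a₀ * c₀ := Nat.mul_le_mul h h7
    omega
  have h7 : a₀ = p + 1 := by omega
  have h8 : c₀ = 2 * r + 2 := by omega
  have h9 : a₀ ≤ a := by omega
  have h10 : c₀ ≤ c := by omega
  exact hv' (Sys.up_type I h9 h10 hv₀ hv₀' ht₀ ht)

end T7n
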