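import Pool.Agent.W_868bb7_h16c.Rel
import Pool.Agent.W_868bb7_h54.TypeStar
import Pool.Agent.W_868bb7_h94.PhiZ

set_option autoImplicit false

/-!
# ConvC: vectors of type `(a, c)` are relations if `M` splits
-/

namespace T7n

open CategoryTheory MonoidalCategory Equiv T7 Pool.Agent.W_MP_868bb7_ag Pool.Agent.W_868bb7_h94

universe v u w

/-- summation over the symmetric group and over the matchings -/
theorem sum_orbit {n : ℕ} {V : Type*} [AddCommGroup V] (g₀ : PM (Fin n))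
    (htr : ∀ m : PM (Fin n), ∃ s : Perm (Fin n), PM.map s g₀ = m) (F : PM (Fin n) → V) :
    ∃ k : ℕ, k ≠ 0 ∧ ∑ s : Perm (Fin n), F (PM.map s g₀) = k • ∑ m, F m := by
  classical
  refine ⟨(Finset.univ.filter (fun s : Perm (Fin n) => PM.map s g₀ = g₀)).card, ?_, ?_⟩
  · refine Finset.card_ne_zero_of_mem (a := (1 : Perm (Fin n))) ?_
    rw [Finset.mem_filter]
    exact ⟨Finset.mem_univ _, rfl⟩
  · have h1 : ∑ s : Perm (Fin n), F (PM.map s g₀) =
        ∑ m : PM (Fin n), ∑ s ∈ Finset.univ.filter (fun s : Perm (Fin n) => PM.map s g₀ = m),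
          F (PM.map s g₀) := (Finset.sum_fiberwise _ _ _).symm
    rw [h1, Finset.smul_sum]
    refine Finset.sum_congr rfl fun m _ => ?_
    rw [Finset.sum_congr rfl fun s hs => by rw [(Finset.mem_filter.1 hs).2], Finset.sum_const]
    congr 1
    obtain ⟨t, rfl⟩ := htr m
    refine Finset.card_bij (fun s _ => t⁻¹ * s) ?_ ?_ ?_
    · intro s hs
      rw [Finset.mem_filter] at hs ⊢
      refine ⟨Finset.mem_univ _, ?_⟩
      have h2 : PM.map (t⁻¹ * s) g₀ = PM.map t⁻¹ (PM.map s g₀) := rfl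
      rw [h2, hs.2]
      exact (PM.map t).symm_apply_apply g₀
    · intro s _ s' _ h
      exact mul_left_cancel h
    · intro s hs
      rw [Finset.mem_filter] at hs
      refine ⟨t * s, ?_, inv_mul_cancel_left t s⟩
      rw [Finset.mem_filter]
      refine ⟨Finset.mem_univ _, ?_⟩
      have h2 : PM.map (t * s) g₀ = PM.map t (PM.map s g₀) := rfl
      rw [h2, hs.2]

variable {C : Type u} [Category.{v} C] [MonoidalCategory C] [SymmetricCategory C]
  [Preadditive C] {K : Type w} [Field K] [Linear K C] [MonoidalPreadditive C]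
  [MonoidalLinear K C]
variable {M T : C} (P : Pairing M T)

omit [MonoidalPreadditive C] [MonoidalLinear K C] in
theorem Phi_qs (g : ℕ) (w : PM (Fin (2 * g)) → K) :
    ∃ k : ℕ, k ≠ 0 ∧
      Phi K M (2 * g) (fun s => w (PM.map s⁻¹ (ms g))) ≫ qs P g = k • ∑ m, w m • qm P g m := by
  obtain ⟨k, hk, h⟩ := sum_orbit (ms g) (exists_map_ms g) (fun m => w m • qm P g m)
  refine ⟨k, hk, ?_⟩
  rw [← h]
  unfold Phi
  rw [Preadditive.sum_comp]
  refine Fintype.sum_equiv (Equiv.inv _) _ _ fun s => ?_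
  rw [Linear.smul_comp]
  change _ = w (PM.map s⁻¹ (ms g)) • qm P g (PM.map s⁻¹ (ms g))
  rw [qm_ms_map, inv_inv]

theorem conv_type [CharZero K] {δ : K} (hδ : P.c ≫ P.q = δ • 𝟙 T)
    (hunit : ∀ a : K, a • 𝟙 (𝟙_ C) = 0 → a = 0) (f f' : M ⟶ M) (hff : f + f' = 𝟙 M)
    (a c : ℕ) (ha : 1 ≤ a) (hc : 1 ≤ c) (hf : powMap f a ≫ E true M a = 0)
    (hf' : powMap f' c ≫ E false M c = 0) (v : PM (Fin a × Fin c) → K)
    (hv : IsType (Prod.fst : Fin a × Fin c → Fin a) v) :
    v ∈ (Rel P hδ hunit).R (Fin a × Fin c) := by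
  classical
  by_cases h0 : v = 0
  · rw [h0]
    exact Submodule.zero_mem _
  obtain ⟨m, -⟩ := Function.ne_iff.1 h0
  obtain ⟨g, hg⟩ := m.even_card
  rw [Fintype.card_prod, Fintype.card_fin, Fintype.card_fin] at hg
  obtain ⟨e⟩ : Nonempty (Fin a × Fin c ≃ Fin (2 * g)) := ⟨Fintype.equivFinOfCardEq (by
    rw [Fintype.card_prod, Fintype.card_fin, Fintype.card_fin, hg]; ring)⟩
  rw [mem_Rel P hδ hunit g e]
  obtain ⟨k, hk, h⟩ := Phi_qs P g (T7.tr e v)
  have hY : ∀ i, Y i (T7.tr e v) = ((c : K) - a) • T7.tr e v := by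
    intro i
    rw [Y_tr, hv.Y_eq hc (card_fst a c), map_smul, Fintype.card_fin]
  have hS : Star ((c : K) - a) (fun s : G (2 * g) => T7.tr e v (PM.map s⁻¹ (ms g))) :=
    star_of_Y hY (ms g)
  have key : ∀ n, n = a * c → ∀ x : G n → K, Star ((c : K) - a) x → Phi K M n x = 0 := by
    rintro _ rfl x hx
    obtain ⟨p, rfl⟩ : ∃ p, a = p + 1 := ⟨a - 1, by omega⟩
    obtain ⟨q, rfl⟩ : ∃ q, c = q + 1 := ⟨c - 1, by omega⟩
    refine Phi_zero K p q f f' hff hf hf' x ?_
    have : ((q : K) - p) = ((q + 1 : ℕ) : K) - ((p + 1 : ℕ) : K) := by push_cast; ring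
    rw [this]
    exact hx
  rw [key (2 * g) (by omega) _ hS, Limits.zero_comp] at h
  have h1 : (k : K) • ∑ m, T7.tr e v m • qm P g m = 0 := by
    rw [Nat.cast_smul_eq_nsmul]
    exact h.symm
  exact (smul_eq_zero.1 h1).resolve_left (Nat.cast_ne_zero.2 hk)

end T7n
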