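import Pool.Agent.W_868bb7_h16c.Defs
import Pool.Agent.W_MP_868bb7_ag.TraceK

set_option autoImplicit false

/-!
# DimQ: closing the pairing gives the dimension
-/

namespace T7n

open CategoryTheory MonoidalCategory T7 Pool.Agent.W_MP_868bb7_ag

universe v u w

variable {C : Type u} [Category.{v} C] [MonoidalCategory C] [SymmetricCategory C]
  [RightRigidCategory C]

theorem ptr_rot (M : C) : ptr M ((β_ (M ⊗ M) M).hom ≫ (α_ M M M).inv) = (β_ M M).hom := by
  rw [BraidedCategory.braiding_tensor_left_hom]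
  have h1 : ((α_ M M M).hom ≫ M ◁ (β_ M M).hom ≫ (α_ M M M).inv ≫ (β_ M M).hom ▷ M ≫
      (α_ M M M).hom) ≫ (α_ M M M).inv =
      ((α_ M M M).hom ≫ M ◁ (β_ M M).hom ≫ (α_ M M M).inv) ≫ (β_ M M).hom ▷ M := by
    simp only [Category.assoc, Iso.hom_inv_id, Category.comp_id]
  rw [h1, ptr_nat_right, ptr_whisker, ptr_braid, MonoidalCategory.whiskerLeft_id,
    Category.id_comp]

theorem pairing_loop {M T : C} (P : Pairing M T) :
    P.c ≫ P.q = (ρ_ T).inv ≫ T ◁ (η_ M Mᘁ ≫ cap M) ≫ (ρ_ T).hom := by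
  have e1 : (β_ T M).hom ≫ M ◁ P.c ≫ (α_ M M M).inv ≫ P.q ▷ M = 𝟙 (T ⊗ M) := by
    rw [P.zig, SymmetricCategory.symmetry]
  have e2 : (β_ T M).hom ≫ M ◁ P.c ≫ (α_ M M M).inv ≫ P.q ▷ M =
      P.c ▷ M ≫ ((β_ (M ⊗ M) M).hom ≫ (α_ M M M).inv) ≫ P.q ▷ M := by
    rw [Category.assoc, BraidedCategory.braiding_naturality_left_assoc]
  have e3 := congrArg (fun F => ptr M F) (e2.symm.trans e1)
  rw [ptr_nat_left, ptr_nat_right, ptr_rot, P.q_symm, ptr_one] at e3
  exact e3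

variable [Preadditive C] {K : Type w} [Field K] [Linear K C] [MonoidalPreadditive C]
  [MonoidalLinear K C]

theorem pairing_dim {M T : C} (P : Pairing M T) (δ : K)
    (h : trU (𝟙 M) = δ • 𝟙 (𝟙_ C)) : P.c ≫ P.q = δ • 𝟙 T := by
  have h1 : η_ M Mᘁ ≫ cap M = δ • 𝟙 (𝟙_ C) := by
    rw [← h]
    unfold trU
    rw [id_whiskerRight, Category.id_comp]
  rw [pairing_loop, h1, MonoidalLinear.whiskerLeft_smul, MonoidalCategory.whiskerLeft_id,
    Linear.smul_comp, Linear.comp_smul, Category.id_comp, Iso.inv_hom_id]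

end T7n
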