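import Pool.Agent.W_868bb7_t7n.BipC
import Pool.Agent.W_868bb7_t7n.StatM
import Pool.Agent.W_868bb7_t7n.ConvC
import Pool.Agent.W_868bb7_t7n.DimQ
import Pool.Agent.W_868bb7_h16.Exi
import Pool.Agent.W_868bb7_h94.MinDeg
import Pool.Agent.W_868bb7_h94.Stat
import Pool.Agent.W_868bb7_h94.Conv

set_option autoImplicit false

/-!
# FinG: assembly of theorem G
-/

namespace T7n

open CategoryTheory MonoidalCategory Limits Equiv T7 Pool.Agent.W_MP_868bb7_ag
  Pool.Agent.W_868bb7_h94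

universe v u w

section

variable {C : Type u} [Category.{v} C] [MonoidalCategory C] [SymmetricCategory C]
  [Preadditive C] (K : Type w) [Field K] [Linear K C]
variable {M T : C} (P : Pairing M T)

variable [MonoidalPreadditive C] [MonoidalLinear K C]

theorem MDep_iff {δ : K} (hδ : P.c ≫ P.q = δ • 𝟙 T)
    (hunit : ∀ a : K, a • 𝟙 (𝟙_ C) = 0 → a = 0) (g : ℕ) :
    MDep K P g ↔ ∃ f ∈ (Rel P hδ hunit).R (Fin (2 * g)), f ≠ 0 := by
  unfold MDep
  rw [Fintype.not_linearIndependent_iff]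
  constructor
  · rintro ⟨f, h, i, hi⟩
    refine ⟨f, ?_, fun h0 => hi (by rw [h0]; rfl)⟩
    rw [mem_Rel P hδ hunit g (Equiv.refl _), tr_refl]
    exact h
  · rintro ⟨f, h, h0⟩
    rw [mem_Rel P hδ hunit g (Equiv.refl _), tr_refl] at h
    refine ⟨f, h, ?_⟩
    by_contra hc
    push Not at hc
    exact h0 (funext hc)

theorem MDep_of_mem {δ : K} (hδ : P.c ≫ P.q = δ • 𝟙 T)
    (hunit : ∀ a : K, a • 𝟙 (𝟙_ C) = 0 → a = 0) {α : Type} [Fintype α] {f : PM α → K}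
    (hf : f ∈ (Rel P hδ hunit).R α) (h0 : f ≠ 0) (g : ℕ) (hg : Fintype.card α = 2 * g) :
    MDep K P g := by
  obtain ⟨e⟩ : Nonempty (α ≃ Fin (2 * g)) := ⟨Fintype.equivFinOfCardEq hg⟩
  rw [MDep_iff K P hδ hunit]
  refine ⟨T7.tr e f, (Rel P hδ hunit).map e hf, fun h => h0 ?_⟩
  exact (T7.tr e).map_eq_zero_iff.1 h

end

section

variable {C : Type u} [Category.{v} C] [MonoidalCategory C] [SymmetricCategory C]
  [Preadditive C] (K : Type w) [Field K] [Linear K C] [CharZero K]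
variable {M T : C} (P : Pairing M T)
variable [MonoidalPreadditive C] [MonoidalLinear K C]

/-- a relation between matchings below the second threshold gives a relation between permutations -/
theorem dep_of_MDep (p r : ℕ) {δ : K} (hδ' : δ = (p : K) - 2 * r) (hδ : P.c ≫ P.q = δ • 𝟙 T)
    (hunit : ∀ a : K, a • 𝟙 (𝟙_ C) = 0 → a = 0) {α₀ : Type} [Fintype α₀] {f₀ : PM α₀ → K}
    (h₀ : f₀ ∈ (Rel P hδ hunit).R α₀) (hf₀ : f₀ ≠ 0)
    (hcard : Fintype.card α₀ < (p + 3) * (2 * r + 4)) :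
    ∃ y : G ((p + 1) * (2 * r + 1)) → K, y ≠ 0 ∧ Phi K M ((p + 1) * (2 * r + 1)) y = 0 := by
  obtain ⟨y, hy0, hy⟩ := exists_star (K := K) p (2 * r)
  refine ⟨y, hy0, ?_⟩
  rw [← bip_iff P hδ hunit]
  refine bip_mem p r δ hδ' (Rel P hδ hunit) h₀ hf₀ ?_ y hy
  rw [Nat.card_eq_fintype_card]
  exact hcard

theorem MDep_of_pow {δ : K} (hδ : P.c ≫ P.q = δ • 𝟙 T)
    (hunit : ∀ a : K, a • 𝟙 (𝟙_ C) = 0 → a = 0) (f f' : M ⟶ M) (hff : f + f' = 𝟙 M)
    (a k : ℕ) (ha : 1 ≤ a) (hk : 1 ≤ k) (hf : powMap f a ≫ E true M a = 0)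
    (hf' : powMap f' (2 * k) ≫ E false M (2 * k) = 0) : 
    ∃ v : PM (Fin a × Fin (2 * k)) → K, v ∈ (Rel P hδ hunit).R (Fin a × Fin (2 * k)) ∧ v ≠ 0 ∧
      IsType (Prod.fst : Fin a × Fin (2 * k) → Fin a) v := by
  obtain ⟨v, hv0, hv⟩ := T7.exists_type K a (2 * k) (even_two_mul k)
  exact ⟨v, conv_type P hδ hunit f f' hff a (2 * k) ha (by omega) hf hf' v hv, hv0, hv⟩

variable [RightRigidCategory C] [UnitK K C]

theorem hunit_of : ∀ a : K, a • 𝟙 (𝟙_ C) = 0 → a = 0 := by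
  intro a h
  have h1 := (UnitK.bij (K := K) (C := C)).1
  apply h1
  simp only [zero_smul]
  exact h

variable [HasBinaryBiproducts C]

include P in
/-- the parity of the odd part -/
theorem even_odd_part (p q : ℕ) (h : KimuraType K M p q) : Even q := by
  obtain ⟨e, he, h1, h2, t1, t2⟩ := idem_of_type K p q h
  by_contra hq
  rw [Nat.not_even_iff_odd] at hq
  obtain ⟨k, hk⟩ := hq
  have t3 : tr K (𝟙 M) = (p : K) - q := by
    rw [tr_sub, t1] at t2
    linear_combination t2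
  have hδ : P.c ≫ P.q = ((p : K) - q) • 𝟙 T := by
    apply pairing_dim
    rw [← t3]
    exact tr_spec K _
  have hun := hunit_of K (C := C)
  have h2' : powMap (𝟙 M - e) (2 * (k + 1)) ≫ E false M (2 * (k + 1)) = 0 :=
    Fd_mono' false (𝟙 M - e) (q + 1) (2 * (k + 1)) (by omega) h2
  obtain ⟨v, hv, hv0, hvt⟩ := MDep_of_pow K P hδ hun e (𝟙 M - e) (by abel) (p + 1) (k + 1)
    (by omega) (by omega) h1 h2'
  obtain ⟨a₀, c₀, ha₀, hc₀, hac₀, hle, -, v₀, hv₀, hv₀', ht₀⟩ := Sys.first (Rel P hδ hun) hv hv0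
  obtain ⟨j, hj⟩ := ClassA_even ht₀ hv₀' ⟨0, by omega⟩
  have h4 : a₀ + 1 + q = c₀ + p := by
    have : ((a₀ + 1 + q : ℕ) : K) = ((c₀ + p : ℕ) : K) := by
      push_cast
      rw [hac₀]
      ring
    exact_mod_cast this
  rw [Nat.card_eq_fintype_card, Fintype.card_prod, Fintype.card_fin, Fintype.card_fin] at hle
  have h5 : a₀ ≤ p := by
    by_contra h5
    push Not at h5
    have h6 : p + 2 ≤ a₀ := by omega
    have h7 : q + 3 ≤ c₀ := by omega
    have h8 := Nat.mul_le_mul h6 h7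
    have h9 : (p + 1) * (2 * (k + 1)) < (p + 2) * (q + 3) := by
      have : 2 * (k + 1) = q + 1 := by omega
      rw [this]
      nlinarith
    omega
  have h6 : c₀ ≤ q + 1 := by omega
  obtain ⟨a', rfl⟩ : ∃ a', a₀ = a' + 1 := ⟨a₀ - 1, by omega⟩
  obtain ⟨j', rfl⟩ : ∃ j', j = j' + 1 := ⟨j - 1, by omega⟩
  obtain ⟨y, hy0, hy⟩ := dep_of_MDep K P a' j' (δ := (p : K) - q) (by
      have : ((a' + 2 + q : ℕ) : K) = ((2 * j' + 2 + p : ℕ) : K) := by
        congr 1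
        omega
      push_cast at this
      linear_combination -this) hδ hun hv₀ hv₀' (by
      rw [Fintype.card_prod, Fintype.card_fin, Fintype.card_fin]
      have : c₀ = 2 * j' + 2 := by omega
      rw [this]
      nlinarith)
  have h10 := Jm_below K M e he p q t1 t2 ((a' + 1) * (2 * j' + 1)) (by
    have h11 : a' + 1 ≤ p := h5
    have h12 : 2 * j' + 1 ≤ q := by omega
    have := Nat.mul_le_mul h11 h12
    nlinarith)
  have h11 : y ∈ Jm K M ((a' + 1) * (2 * j' + 1)) := hy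
  rw [h10, Submodule.mem_bot] at h11
  exact hy0 h11

variable [IsIdempotentComplete C]

theorem type_of_MDep (p r : ℕ) (hS : Signed K M p (2 * r)) (g : ℕ) (hg : g < (p + 3) * (r + 2))
    (hd : MDep K P g) : KimuraType K M p (2 * r) := by
  obtain ⟨⟨π, hπ⟩, hdim⟩ := hS
  have hun := hunit_of K (C := C)
  have hδ : P.c ≫ P.q = ((p : K) - 2 * r) • 𝟙 T := by
    apply pairing_dim
    rw [hdim]
    push_cast
    rfl
  obtain ⟨f, hf, hf0⟩ := (MDep_iff K P hδ hun g).1 hd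
  obtain ⟨y, hy0, hy⟩ := dep_of_MDep K P p r rfl hδ hun hf hf0 (by
    rw [Fintype.card_fin]
    nlinarith)
  obtain ⟨e, he, t1, t2, h1, h2⟩ := forward K M π p (2 * r)
    (fun k hk => tr_unique K _ _ (hπ k hk)) (tr_unique K _ _ hdim) _ (by nlinarith) y hy0 hy
  exact type_of_idem K e he p (2 * r) h1 h2 t1 t2

theorem MDep_of_type (p r : ℕ) (h : KimuraType K M p (2 * r)) :
    Signed K M p (2 * r) ∧ MDep K P ((p + 1) * (r + 1)) := by
  obtain ⟨e, he, h1, h2, t1, t2⟩ := idem_of_type K p (2 * r) h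
  have t3 : tr K (𝟙 M) = (p : K) - ((2 * r : ℕ) : K) := by
    rw [tr_sub, t1] at t2
    linear_combination t2
  have hun := hunit_of K (C := C)
  have hS : Signed K M p (2 * r) := by
    refine ⟨⟨e, ?_⟩, ?_⟩
    · intro k hk
      obtain ⟨m, rfl⟩ : ∃ m, k = m + 1 := ⟨k - 1, by omega⟩
      rw [it_idem e he, tr_spec K, t1]
    · rw [tr_spec K, t3]
  refine ⟨hS, ?_⟩
  have hδ : P.c ≫ P.q = ((p : K) - ((2 * r : ℕ) : K)) • 𝟙 T := pairing_dim P _ hS.2
  have h2' : powMap (𝟙 M - e) (2 * (r + 1)) ≫ E false M (2 * (r + 1)) = 0 :=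
    Fd_mono' false (𝟙 M - e) (2 * r + 1) (2 * (r + 1)) (by omega) h2
  obtain ⟨v, hv, hv0, -⟩ := MDep_of_pow K P hδ hun e (𝟙 M - e) (by abel) (p + 1) (r + 1)
    (by omega) (by omega) h1 h2'
  exact MDep_of_mem K P hδ hun hv hv0 _ (by
    rw [Fintype.card_prod, Fintype.card_fin, Fintype.card_fin]
    ring)

end

end T7n
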