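import Pool.Agent.W_868bb7_t7n.FinG
import Pool.Agent.W_868bb7_h16.Rig

set_option autoImplicit false

/-!
# FinH: the degrees of dependence, rigidity
-/

namespace T7n

open CategoryTheory MonoidalCategory Limits Equiv T7 Pool.Agent.W_MP_868bb7_ag
  Pool.Agent.W_868bb7_h94

universe v u w

variable {C : Type u} [Category.{v} C] [MonoidalCategory C] [SymmetricCategory C]
  [Preadditive C] (K : Type w) [Field K] [Linear K C] [CharZero K]
variable {M T : C} (P : Pairing M T)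
variable [MonoidalPreadditive C] [MonoidalLinear K C]

omit [CharZero K] in
theorem MDep_iff' {δ : K} (hδ : P.c ≫ P.q = δ • 𝟙 T)
    (hunit : ∀ a : K, a • 𝟙 (𝟙_ C) = 0 → a = 0) (g : ℕ) :
    MDep K P g ↔ (Rel P hδ hunit).R (Fin (2 * g)) ≠ ⊥ := by
  rw [MDep_iff K P hδ hunit, Submodule.ne_bot_iff]

/-- the degrees of dependence -/
theorem degrees {δ : K} (hδ : P.c ≫ P.q = δ • 𝟙 T)
    (hunit : ∀ a : K, a • 𝟙 (𝟙_ C) = 0 → a = 0) {g₀ : ℕ} (h₀ : MDep K P g₀) :
    ∃ a b : ℕ, 1 ≤ a ∧ 1 ≤ b ∧ δ = (a : K) + 1 - 2 * b ∧ ∀ g, MDep K P g ↔ a * b ≤ g := by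
  rw [MDep_iff' K P hδ hunit] at h₀
  obtain ⟨a, c, ha, hc, ⟨b, hb⟩, hac, h⟩ := (Rel P hδ hunit).ne_bot_iff h₀
  refine ⟨a, b, ha, by omega, ?_, ?_⟩
  · rw [hac, hb]
    push_cast
    ring
  · intro g
    rw [MDep_iff' K P hδ hunit, h, Nat.card_fin, hb]
    have h1 : a * (b + b) = 2 * (a * b) := by ring
    rw [h1]
    constructor
    · rintro ⟨h2, -⟩
      omega
    · intro h2
      exact ⟨by omega, even_two_mul g⟩

/-- rigidity -/
theorem rigid {M' T' : C} (P' : Pairing M' T') {δ : K} (hδ : P.c ≫ P.q = δ • 𝟙 T)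
    (hδ' : P'.c ≫ P'.q = δ • 𝟙 T') (hunit : ∀ a : K, a • 𝟙 (𝟙_ C) = 0 → a = 0)
    (h : ∀ g, MDep K P' g → MDep K P g) (g : ℕ) (f : PM (Fin (2 * g)) → K)
    (hf : ∑ m, f m • qm P' g m = 0) : ∑ m, f m • qm P g m = 0 := by
  have h1 : f ∈ (Rel P' hδ' hunit).R (Fin (2 * g)) := by
    rw [mem_Rel P' hδ' hunit g (Equiv.refl _), tr_refl]
    exact hf
  have h2 := (Rel P hδ hunit).le_of_dep (Rel P' hδ' hunit) (by
    intro β _ hβ
    obtain ⟨x, hx, hx0⟩ := Submodule.exists_mem_ne_zero_of_ne_bot hβ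
    obtain ⟨m, -⟩ := Function.ne_iff.1 hx0
    have := Fintype.ofFinite β
    obtain ⟨s, hs⟩ : Even (Fintype.card β) := by
      classical
      exact m.even_card
    refine ⟨Fin (2 * s), inferInstance, ?_, ?_⟩
    · rw [Nat.card_fin, Nat.card_eq_fintype_card, hs]
      omega
    · rw [← MDep_iff' K P hδ hunit]
      exact h s (MDep_of_mem K P' hδ' hunit hx hx0 s (by omega))) _ h1
  rw [mem_Rel P hδ hunit g (Equiv.refl _), tr_refl] at h2
  exact h2

variable [RightRigidCategory C] [UnitK K C]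

/-- the invariants of an object with the sign property -/
theorem quant (p r : ℕ) (hS : Signed K M p (2 * r)) (a b : ℕ) (ha : 1 ≤ a) (hb : 1 ≤ b)
    (hab : tr K (𝟙 M) = (a : K) + 1 - 2 * b) (hd : MDep K P (a * b)) :
    ∃ k : ℕ, a = p + 1 + 2 * k ∧ b = r + 1 + k := by
  obtain ⟨⟨π, hπ⟩, hdim⟩ := hS
  have hun := hunit_of K (C := C)
  have hδ : P.c ≫ P.q = ((p : K) - 2 * r) • 𝟙 T := by
    apply pairing_dim
    rw [hdim]
    push_cast
    rfl
  have hdim' := tr_unique K _ _ hdim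
  rw [hdim'] at hab
  push_cast at hab
  have e1 : a + 1 + 2 * r = 2 * b + p := by
    have : ((a + 1 + 2 * r : ℕ) : K) = ((2 * b + p : ℕ) : K) := by
      push_cast
      linear_combination -hab
    exact_mod_cast this
  have hbr : r + 1 ≤ b := by
    by_contra hlt
    push Not at hlt
    obtain ⟨f, hf, hf0⟩ := (MDep_iff K P hδ hun _).1 hd
    obtain ⟨a', rfl⟩ : ∃ a', a = a' + 1 := ⟨a - 1, by omega⟩
    obtain ⟨b', rfl⟩ : ∃ b', b = b' + 1 := ⟨b - 1, by omega⟩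
    obtain ⟨y, hy0, hy⟩ := dep_of_MDep K P a' b' (δ := (p : K) - 2 * r) (by
        rw [hab]
        push_cast
        ring) hδ hun hf hf0 (by
      rw [Fintype.card_fin]
      nlinarith)
    have hlt2 : (a' + 1) * (2 * b' + 1) < (p + 1) * (2 * r + 1) := by
      have h11 : a' + 1 ≤ p := by omega
      have h12 : 2 * b' + 1 ≤ 2 * r := by omega
      have := Nat.mul_le_mul h11 h12
      nlinarith
    obtain ⟨e, he, t1, t2, -, -⟩ := forward K M π p (2 * r)
      (fun k hk => tr_unique K _ _ (hπ k hk)) hdim' _ (by nlinarith) y hy0 hy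
    have h10 := Jm_below K M e he p (2 * r) t1 t2 ((a' + 1) * (2 * b' + 1)) hlt2
    have h11 : y ∈ Jm K M ((a' + 1) * (2 * b' + 1)) := hy
    rw [h10, Submodule.mem_bot] at h11
    exact hy0 h11
  exact ⟨b - (r + 1), by omega, by omega⟩

end T7n
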