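import Pool.Agent.W_868bb7_t7n.Defs

set_option autoImplicit false

/-!
# KpA: the sign `kp β s`
-/

namespace T7n

open Equiv T7

section SgO

variable {α γ : Type*} [Fintype α] [DecidableEq α] [Fintype γ] [DecidableEq γ]

theorem inv_app (g : Perm α) (i : α) : g⁻¹ (g i) = i :=
  Equiv.symm_apply_apply g i

theorem app_inv (g : Perm α) (i : α) : g (g⁻¹ i) = i :=
  Equiv.apply_symm_apply g i

theorem sgO_mul (P : α → Bool) (s t : Perm α) (hs : ∀ i, P (s i) = P i)
    (ht : ∀ i, P (t i) = P i) : sgO P (s * t) = sgO P s * sgO P t := by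
  have hst : ∀ i, P ((s * t) i) = P i := by
    intro i
    rw [Perm.mul_apply, hs, ht]
  unfold sgO
  rw [dif_pos hst, dif_pos hs, dif_pos ht, ← Units.val_mul, ← map_mul]
  congr 2

theorem sgO_one (P : α → Bool) : sgO P (1 : Perm α) = 1 := by
  have h : ∀ i, P ((1 : Perm α) i) = P i := fun i => rfl
  unfold sgO
  rw [dif_pos h]
  simp

theorem sgO_swap (P : α → Bool) (i j : α) (hij : i ≠ j) (h : P i = P j) :
    sgO P (swap i j) = if P i = true then -1 else 1 := by
  have hs : ∀ k, P (swap i j k) = P k := by
    intro k
    by_cases h1 : k = i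
    · rw [h1, swap_apply_left, h]
    · by_cases h2 : k = j
      · rw [h2, swap_apply_right, h]
      · rw [swap_apply_of_ne_of_ne h1 h2]
  unfold sgO
  rw [dif_pos hs]
  by_cases hi : P i = true
  · rw [if_pos hi]
    have hj : P j = true := by rw [← h, hi]
    have h3 : ((swap i j).subtypePerm (p := fun i => P i = true) (fun k => by rw [hs k]) :
        Perm {i // P i = true}) = swap ⟨i, hi⟩ ⟨j, hj⟩ := by
      ext ⟨k, hk⟩
      simp only [Perm.subtypePerm_apply]
      by_cases h1 : k = i
      · subst h1
        simp
      · by_cases h2 : k = j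
        · subst h2
          simp
        · rw [swap_apply_of_ne_of_ne h1 h2, swap_apply_of_ne_of_ne]
          · intro h4
            exact h1 (congrArg Subtype.val h4)
          · intro h4
            exact h2 (congrArg Subtype.val h4)
    rw [h3, Perm.sign_swap]
    · rfl
    · intro h4
      exact hij (congrArg Subtype.val h4)
  · rw [if_neg hi]
    have hj : ¬ P j = true := by rw [← h]; exact hi
    have h3 : ((swap i j).subtypePerm (p := fun i => P i = true) (fun k => by rw [hs k]) :
        Perm {i // P i = true}) = 1 := by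
      ext ⟨k, hk⟩
      simp only [Perm.subtypePerm_apply, Perm.coe_one, id_eq]
      rw [swap_apply_of_ne_of_ne]
      · rintro rfl
        exact hi hk
      · rintro rfl
        exact hj hk
    rw [h3]
    simp

/-- transport -/
theorem sgO_trans (P : γ → Bool) (e : α ≃ γ) (s : Perm α) :
    sgO P (e.permCongr s) = sgO (fun i => P (e i)) s := by
  unfold sgO
  by_cases h : ∀ i, P (e (s i)) = P (e i)
  · have h' : ∀ i, P (e.permCongr s i) = P i := by
      intro i
      rw [permCongr_apply, h, apply_symm_apply]
    rw [dif_pos h, dif_pos h']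
    congr 1
    let e' : {i // P (e i) = true} ≃ {i // P i = true} := e.subtypeEquiv (fun i => Iff.rfl)
    have h1 := Perm.sign_permCongr e'
      (s.subtypePerm (p := fun i => P (e i) = true) (fun i => by rw [h i]))
    rw [← h1]
    rfl
  · have h' : ¬ ∀ i, P (e.permCongr s i) = P i := by
      intro h2
      apply h
      intro i
      have h3 := h2 (e i)
      rw [permCongr_apply, symm_apply_apply] at h3
      exact h3
    rw [dif_neg h, dif_neg h']

theorem KpA_of (P : α → Bool) (s : Perm α)
    (h : ∀ i, P i = true ↔ P (s i) = true) (x : α) :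
    Perm.ofSubtype (p := fun i => P i = true)
      (s.subtypePerm (p := fun i => P i = true) (fun i => (h i).symm)) x =
      if P x = true then s x else x := by
  by_cases hP : P x = true
  · rw [if_pos hP, Perm.ofSubtype_apply_of_mem (p := fun i => P i = true) _ hP]
    rfl
  · rw [if_neg hP, Perm.ofSubtype_apply_of_not_mem (p := fun i => P i = true) _ hP]

/-- the new points fixed -/
theorem sgO_sum (P : α ⊕ γ → Bool) (s : Perm α) :
    sgO P (sumCongr s 1) = sgO (fun i : α => P (Sum.inl i)) s := by
  unfold sgO
  by_cases h : ∀ i : α, P (Sum.inl (s i)) = P (Sum.inl i)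
  · have h' : ∀ i, P (sumCongr s (1 : Perm γ) i) = P i := by
      intro i
      rcases i with i | i
      · exact h i
      · rfl
    rw [dif_pos h, dif_pos h']
    have h1 : ∀ i, P i = true ↔ P (sumCongr s (1 : Perm γ) i) = true := fun i => by rw [h' i]
    have h2 : ∀ i : α, P (Sum.inl i) = true ↔ P (Sum.inl (s i)) = true :=
      fun i => by rw [h i]
    congr 1
    rw [← Perm.sign_ofSubtype, ← Perm.sign_ofSubtype]
    have h3 : ∀ g : Perm α, Perm.sign (sumCongr g (1 : Perm γ)) = Perm.sign g := by
      intro g
      have h4 := Perm.sign_sumCongr g (1 : Perm γ)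
      rw [Perm.sign_one, mul_one] at h4
      exact h4
    rw [← h3]
    congr 1
    apply Equiv.ext
    intro x
    rcases x with x | x
    · have h5 := KpA_of _ _ h1 (Sum.inl x)
      have h6 := KpA_of _ _ h2 x
      refine h5.trans ?_
      change _ = Sum.inl (_ : α)
      rw [h6]
      change (if P (Sum.inl x) = true then Sum.inl (s x) else Sum.inl x) = _
      split_ifs <;> rfl
    · have h5 := KpA_of _ _ h1 (Sum.inr x)
      refine h5.trans ?_
      change (if P (Sum.inr x) = true then Sum.inr x else Sum.inr x) = Sum.inr x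
      rw [ite_self]
  · have h' : ¬ ∀ i, P (sumCongr s (1 : Perm γ) i) = P i := by
      intro h2
      apply h
      intro i
      exact h2 (Sum.inl i)
    rw [dif_neg h, dif_neg h']

end SgO

section Kp

variable {α γ : Type*} [Fintype α] [DecidableEq α] [Fintype γ] [DecidableEq γ] {p r : ℕ}

theorem kp_of_not (β : α → Col p r) (s : Perm α) (h : ¬ ∀ i, β (s i) = β i) :
    kp β s = 0 := if_neg h

theorem kp_of (β : α → Col p r) (s : Perm α) (h : ∀ i, β (s i) = β i) :
    kp β s = sgO (fun i => (β i).isRight) s := if_pos h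

theorem kp_mul_right (β : α → Col p r) (s t : Perm α) (ht : ∀ i, β (t i) = β i) :
    kp β (s * t) = kp β s * kp β t := by
  by_cases hs : ∀ i, β (s i) = β i
  · have hst : ∀ i, β ((s * t) i) = β i := fun i => by rw [Perm.mul_apply, hs, ht]
    rw [kp_of β _ hst, kp_of β _ hs, kp_of β _ ht]
    exact sgO_mul _ s t (fun i => congrArg Sum.isRight (hs i))
      (fun i => congrArg Sum.isRight (ht i))
  · have hst : ¬ ∀ i, β ((s * t) i) = β i := by
      intro h
      apply hs
      intro i
      have h1 := h (t⁻¹ i)
      rw [Perm.mul_apply, app_inv] at h1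
      rw [h1]
      have h2 := ht (t⁻¹ i)
      rw [app_inv] at h2
      exact h2.symm
    rw [kp_of_not β _ hst, kp_of_not β _ hs, zero_mul]

theorem kp_mul_left (β : α → Col p r) (s t : Perm α) (hs : ∀ i, β (s i) = β i) :
    kp β (s * t) = kp β s * kp β t := by
  by_cases ht : ∀ i, β (t i) = β i
  · exact kp_mul_right β s t ht
  · have hst : ¬ ∀ i, β ((s * t) i) = β i := by
      intro h
      apply ht
      intro i
      rw [← h i, Perm.mul_apply, hs]
    rw [kp_of_not β _ hst, kp_of_not β _ ht, mul_zero]

theorem kp_one (β : α → Col p r) : kp β 1 = 1 := by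
  rw [kp_of β _ (fun i => rfl), sgO_one]

theorem kp_swap (β : α → Col p r) (i j : α) (hij : i ≠ j) (h : β i = β j) :
    kp β (swap i j) = sgc (β i) := by
  have hs : ∀ k, β (swap i j k) = β k := by
    intro k
    by_cases h1 : k = i
    · rw [h1, swap_apply_left, h]
    · by_cases h2 : k = j
      · rw [h2, swap_apply_right, h]
      · rw [swap_apply_of_ne_of_ne h1 h2]
  rw [kp_of β _ hs, sgO_swap _ i j hij (congrArg Sum.isRight h)]
  rfl

theorem kp_sq (β : α → Col p r) (s : Perm α) (h : ∀ i, β (s i) = β i) :
    kp β s * kp β s = 1 := by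
  rw [kp_of β _ h]
  have h' : ∀ i, (fun i => (β i).isRight) (s i) = (fun i => (β i).isRight) i :=
    fun i => congrArg Sum.isRight (h i)
  unfold sgO
  rw [dif_pos h']
  rcases Int.units_eq_one_or (Perm.sign (s.subtypePerm (p := fun i => (β i).isRight = true)
    (fun i => by rw [h i]) : Perm {i // (β i).isRight = true})) with h1 | h1
  · rw [h1]
    rfl
  · rw [h1]
    rfl

/-- without odd colours the sign is `1` -/
theorem kp_even (β : α → Col p r) (s : Perm α) (h : ∀ i, β (s i) = β i)
    (he : ∀ i, (β i).isRight = false) : kp β s = 1 := by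
  rw [kp_of β _ h]
  have h' : ∀ i, (fun i => (β i).isRight) (s i) = (fun i => (β i).isRight) i :=
    fun i => congrArg Sum.isRight (h i)
  unfold sgO
  rw [dif_pos h']
  haveI : IsEmpty {i // (β i).isRight = true} := ⟨fun x => by
    have h1 := x.2
    rw [he] at h1
    exact absurd h1 (by simp)⟩
  have h1 : (s.subtypePerm (p := fun i => (β i).isRight = true) (fun i => by rw [h i]) :
      Perm {i // (β i).isRight = true}) = 1 := Subsingleton.elim _ _
  rw [h1]
  simp

theorem kp_trans (β : γ → Col p r) (e : α ≃ γ) (s : Perm α) :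
    kp β (e.permCongr s) = kp (fun i => β (e i)) s := by
  unfold kp
  by_cases h : ∀ i, β (e (s i)) = β (e i)
  · have h' : ∀ i, β (e.permCongr s i) = β i := by
      intro i
      rw [permCongr_apply, h, apply_symm_apply]
    rw [if_pos h, if_pos h']
    exact sgO_trans (fun i => (β i).isRight) e s
  · have h' : ¬ ∀ i, β (e.permCongr s i) = β i := by
      intro h2
      apply h
      intro i
      have h3 := h2 (e i)
      rw [permCongr_apply, symm_apply_apply] at h3
      exact h3
    rw [if_neg h, if_neg h']

theorem kp_sum (β : α ⊕ γ → Col p r) (s : Perm α) :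
    kp β (sumCongr s 1) = kp (fun i : α => β (Sum.inl i)) s := by
  unfold kp
  by_cases h : ∀ i : α, β (Sum.inl (s i)) = β (Sum.inl i)
  · have h' : ∀ i, β (sumCongr s (1 : Perm γ) i) = β i := by
      intro i
      rcases i with i | i
      · exact h i
      · rfl
    rw [if_pos h, if_pos h']
    exact sgO_sum (fun i => (β i).isRight) s
  · have h' : ¬ ∀ i, β (sumCongr s (1 : Perm γ) i) = β i := by
      intro h2
      apply h
      intro i
      exact h2 (Sum.inl i)
    rw [if_neg h, if_neg h']

end Kp

end T7n
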