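import Pool.Agent.W_868bb7_t7n.NType

set_option autoImplicit false

/-!
# NBip: combinations of permutations (bipartite matchings) and the system `NS K p r`
-/

namespace T7n

open Equiv T7

variable {K : Type*} [Field K] [CharZero K]

omit [CharZero K] in
theorem map_bip {α : Type*} (h : Perm α) (t : Perm α) :
    PM.map (sumCongr h (1 : Perm α)) (bip t) = bip (t * h⁻¹) := by
  refine PM.ext fun i => ?_
  rcases i with i | i
  · rfl
  · change Sum.inl (h (t⁻¹ i)) = Sum.inl ((t * h⁻¹)⁻¹ i)
    rw [mul_inv_rev, inv_inv]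
    rfl

/-- a combination of permutations with star sums `q - p` is in `InN p' r`, `p' ≤ p`, `2 r ≤ q` -/
theorem InN_bip {N : ℕ} (p q p' r : ℕ) (hp : p' ≤ p) (hq : 2 * r ≤ q)
    (hN : N = (p + 1) * (q + 1)) (y : Perm (Fin N) → K)
    (hy : ∀ (k : Fin N) (g : Perm (Fin N)),
      ∑ j ∈ Finset.univ.erase k, y (swap j k * g) = ((q : K) - p) * y g) :
    InN p' r (bipF y) := by
  intro β m hm
  refine avg_sum β (bipF y) (fun m' hm' => ?_) m hm
  by_cases ht : ∃ t : Perm (Fin N), bip t = m'
  · obtain ⟨t, rfl⟩ := ht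
    have h1 := avg_zero (K := K) p q p' r hp hq hN (fun g => y (t * g⁻¹)) ?_
      (fun i => β (Sum.inl i)) 1
    · refine Eq.trans ?_ h1
      refine Finset.sum_congr rfl fun h _ => ?_
      rw [map_bip, bipF_bip, mul_one]
    · intro k g
      have h2 := hy ((t * g⁻¹) k) (t * g⁻¹)
      rw [← h2]
      refine Finset.sum_bij' (fun j _ => (t * g⁻¹) j) (fun j _ => (t * g⁻¹).symm j) ?_ ?_ ?_ ?_ ?_
      · intro j hj
        rw [Finset.mem_erase] at hj ⊢
        exact ⟨fun h' => hj.1 ((t * g⁻¹).injective h'), Finset.mem_univ _⟩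
      · intro j hj
        rw [Finset.mem_erase] at hj ⊢
        refine ⟨fun h' => hj.1 ?_, Finset.mem_univ _⟩
        rw [← h', Equiv.apply_symm_apply]
      · intro j _
        exact Equiv.symm_apply_apply _ _
      · intro j _
        exact Equiv.apply_symm_apply _ _
      · intro j _
        congr 1
        rw [Equiv.swap_apply_apply, mul_inv_rev, swap_inv]
        group
  · refine Finset.sum_eq_zero fun h _ => ?_
    rw [bipF_of_not, mul_zero]
    rintro ⟨t, h1⟩
    apply ht
    refine ⟨t * h, ?_⟩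
    have h2 := map_bip h⁻¹ t
    rw [inv_inv] at h2
    rw [← h2, h1]
    refine PM.ext fun i => ?_
    rcases i with i | i
    · change (sumCongr h⁻¹ (1 : Perm (Fin N))) ((sumCongr h (1 : Perm (Fin N)))
        (m' (Sum.inl (h⁻¹ (h i))))) = _
      rw [inv_app]
      rcases m' (Sum.inl i) with j | j
      · change Sum.inl (h⁻¹ (h j)) = _
        rw [inv_app]
      · rfl
    · change (sumCongr h⁻¹ (1 : Perm (Fin N))) ((sumCongr h (1 : Perm (Fin N)))
        (m' (Sum.inr i))) = _
      rcases m' (Sum.inr i) with j | j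
      · change Sum.inl (h⁻¹ (h j)) = _
        rw [inv_app]
      · rfl

/-- a combination of permutations invariant under at most `p` blocks is not in `InN p r` -/
theorem not_InN_bip {α : Type*} [Fintype α] [DecidableEq α] {a p r : ℕ} (hap : a ≤ p)
    (b : α → Fin a) (x : Perm α → K)
    (hx : ∀ s : Perm α, (∀ i, b (s i) = b i) → ∀ g, x (s * g) = x g) (h0 : x ≠ 0) :
    ¬ InN p r (bipF x) := by
  intro h
  obtain ⟨g₀, hg₀⟩ := Function.ne_iff.1 h0
  let β : α ⊕ α → Col p r := Sum.elim (fun i => Sum.inl (Fin.castLE hap (b (g₀ i))))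
    (fun i => Sum.inl (Fin.castLE hap (b i)))
  have hm : Cmp β (bip g₀) := by
    intro i
    rcases i with i | i
    · rfl
    · change (Sum.inl (Fin.castLE hap (b (g₀ (g₀⁻¹ i)))) : Col p r) = Sum.inl _
      rw [app_inv]
  have h1 := h β (bip g₀) hm
  have he : ∀ i, (β i).isRight = false := by
    intro i
    rcases i with i | i <;> rfl
  classical
  have h2 : ∀ s : Perm (α ⊕ α), ((kp β s : ℤ) : K) * bipF x (PM.map s (bip g₀)) =
      if (∀ i, β (s i) = β i) ∧ ∃ t, bip t = PM.map s (bip g₀) then x g₀ else 0 := by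
    intro s
    split_ifs with hs
    · obtain ⟨hs1, t, ht⟩ := hs
      rw [kp_even _ _ hs1 he, Int.cast_one, one_mul, ← ht, bipF_bip]
      have h3 := hm.map s hs1
      rw [← ht] at h3
      have h4 : ∀ i, b ((t * g₀⁻¹) i) = b i := by
        intro i
        have h5 := h3 (Sum.inl (g₀⁻¹ i))
        have h6 : (Sum.inl (Fin.castLE hap (b (t (g₀⁻¹ i)))) : Col p r) =
            Sum.inl (Fin.castLE hap (b (g₀ (g₀⁻¹ i)))) := h5
        rw [app_inv] at h6
        exact Fin.castLE_injective hap (Sum.inl_injective h6)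
      have h5 := hx (t * g₀⁻¹) h4 g₀
      rw [inv_mul_cancel_right] at h5
      exact h5
    · rw [not_and_or] at hs
      rcases hs with hs | hs
      · rw [kp_of_not _ _ hs, Int.cast_zero, zero_mul]
      · rw [bipF_of_not _ _ hs, mul_zero]
  rw [Finset.sum_congr rfl (fun s _ => h2 s), ← Finset.sum_filter, Finset.sum_const,
    nsmul_eq_mul] at h1
  rcases mul_eq_zero.1 h1 with h3 | h3
  · rw [Nat.cast_eq_zero, Finset.card_eq_zero] at h3
    have h4 : (1 : Perm (α ⊕ α)) ∈ Finset.univ.filter (fun s : Perm (α ⊕ α) =>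
        (∀ i, β (s i) = β i) ∧ ∃ t, bip t = PM.map s (bip g₀)) := by
      rw [Finset.mem_filter]
      exact ⟨Finset.mem_univ _, fun i => rfl, g₀, rfl⟩
    rw [h3] at h4
    exact absurd h4 (Finset.notMem_empty _)
  · exact hg₀ h3

end T7n
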