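import Pool.Agent.W_868bb7_t7n.NUp

set_option autoImplicit false

/-!
# NDown: `InN` is stable under contraction with the parameter `p - 2 r`
-/

namespace T7n

open Equiv T7

variable {K : Type*} [Field K]
variable {α : Type*} [Fintype α] [DecidableEq α] {p r : ℕ}

omit [Fintype α] in
theorem fix_exists (g : Perm (α ⊕ Bool)) (h1 : g (Sum.inr true) = Sum.inr true)
    (h0 : g (Sum.inr false) = Sum.inr false) : ∃ s : Perm α, g = sumCongr s 1 := by
  have ha : ∀ x : α, ∃ y : α, g (Sum.inl x) = Sum.inl y := by
    intro x
    rcases hy : g (Sum.inl x) with y | y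
    · exact ⟨y, rfl⟩
    · exfalso
      cases y
      · have := g.injective (hy.trans h0.symm)
        exact absurd this (by simp)
      · have := g.injective (hy.trans h1.symm)
        exact absurd this (by simp)
  have hb : ∀ x : α, ∃ y : α, g.symm (Sum.inl x) = Sum.inl y := by
    intro x
    rcases hy : g.symm (Sum.inl x) with y | y
    · exact ⟨y, rfl⟩
    · exfalso
      rw [symm_apply_eq] at hy
      cases y
      · rw [h0] at hy
        exact absurd hy (by simp)
      · rw [h1] at hy
        exact absurd hy (by simp)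
  choose f hf using ha
  choose f' hf' using hb
  refine ⟨⟨f, f', fun x => ?_, fun x => ?_⟩, ?_⟩
  · apply Sum.inl_injective (β := Bool)
    rw [← hf', ← hf, symm_apply_apply]
  · apply Sum.inl_injective (β := Bool)
    rw [← hf, ← hf', apply_symm_apply]
  · ext x
    rcases x with x | x
    · exact hf x
    · cases x
      · exact h0
      · exact h1

/-- `1` or `swap (inl x) (inr false)` -/
def tau : Option α → Perm (α ⊕ Bool)
  | none => 1
  | some x => swap (Sum.inl x) (Sum.inr false)

omit [Fintype α] in
theorem tau_true (o : Option α) : tau o (Sum.inr true) = Sum.inr true := by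
  rcases o with _ | x
  · rfl
  · exact swap_apply_of_ne_of_ne (by simp) (by simp)

/-- sums over the permutations fixing `inr true` -/
theorem sum_fix {M : Type*} [AddCommMonoid M] (F : Perm (α ⊕ Bool) → M) :
    ∑ s ∈ Finset.univ.filter (fun s : Perm (α ⊕ Bool) => s (Sum.inr true) = Sum.inr true), F s =
      ∑ s : Perm α, (F (sumCongr s 1) +
        ∑ x : α, F (swap (Sum.inl x) (Sum.inr false) * sumCongr s 1)) := by
  have h1 : ∀ s : Perm α, (F (sumCongr s 1) +
      ∑ x : α, F (swap (Sum.inl x) (Sum.inr false) * sumCongr s 1)) =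
      ∑ o : Option α, F (tau o * sumCongr s 1) := by
    intro s
    rw [Fintype.sum_option]
    rfl
  simp only [h1]
  rw [← Fintype.sum_prod_type']
  symm
  refine Finset.sum_bij (fun (q : Perm α × Option α) _ => tau q.2 * sumCongr q.1 1) ?_ ?_ ?_ ?_
  · intro q _
    rw [Finset.mem_filter]
    refine ⟨Finset.mem_univ _, ?_⟩
    rw [Perm.mul_apply]
    exact tau_true q.2
  · rintro ⟨s, o⟩ _ ⟨s', o'⟩ _ h
    have h2 : tau o (Sum.inr false) = tau o' (Sum.inr false) := by
      have h3 := congrArg (fun g : Perm (α ⊕ Bool) => g (Sum.inr false)) h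
      simpa [Perm.mul_apply] using h3
    have h3 : o = o' := by
      rcases o with _ | x <;> rcases o' with _ | x'
      · rfl
      · simp [tau] at h2
      · simp [tau] at h2
      · simp [tau] at h2
        rw [h2]
    subst h3
    have h4 := mul_left_cancel h
    have h5 : s = s' := by
      ext i
      have h6 := congrArg (fun g : Perm (α ⊕ Bool) => g (Sum.inl i)) h4
      exact Sum.inl_injective h6
    rw [h5]
  · intro g hg
    rw [Finset.mem_filter] at hg
    rcases hu : g (Sum.inr false) with x | b
    · obtain ⟨s, hs⟩ := fix_exists (swap (Sum.inl x) (Sum.inr false) * g)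
        (by rw [Perm.mul_apply, hg.2]; exact tau_true (some x))
        (by rw [Perm.mul_apply, hu, swap_apply_left])
      refine ⟨(s, some x), Finset.mem_univ _, ?_⟩
      change swap (Sum.inl x) (Sum.inr false) * sumCongr s 1 = g
      rw [← hs, ← mul_assoc, swap_mul_self, one_mul]
    · cases b
      · obtain ⟨s, hs⟩ := fix_exists g hg.2 hu
        refine ⟨(s, none), Finset.mem_univ _, ?_⟩
        change 1 * sumCongr s 1 = g
        rw [hs, one_mul]
      · have := g.injective (hu.trans hg.2.symm)
        exact absurd this (by simp)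
  · intro q _
    rfl

/-- extension of a colouring by the colours `κ`, `dual κ` of `inr false`, `inr true` -/
def ext2 (κ : Col p r) (β : α → Col p r) : α ⊕ Bool → Col p r :=
  Sum.elim β (fun b => if b = true then dual κ else κ)

omit [Fintype α] [DecidableEq α] in
theorem Cmp.ext2 {β : α → Col p r} {m : PM α} (h : Cmp β m) (κ : Col p r) :
    Cmp (ext2 κ β) (PM.sum m PM.bool) := by
  intro i
  rcases i with i | b
  · exact h i
  · cases b
    · rfl
    · change κ = dual (dual κ)
      rw [dual_dual]

/-- the automorphism of the matching that moves `j` to `inr true` -/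
theorem exists_t (κ : Col p r) (β : α → Col p r) (m : PM α) (hm : Cmp β m) (j : α ⊕ Bool)
    (hj : ext2 κ β j = dual κ) : ∃ t : Perm (α ⊕ Bool), (∀ i, ext2 κ β (t i) = ext2 κ β i) ∧
      t j = Sum.inr true ∧ PM.map t (PM.sum m PM.bool) = PM.sum m PM.bool ∧
      kp (ext2 κ β) t = 1 := by
  rcases j with y | b
  · have hy : β y = dual κ := hj
    have hmy : β (m y) = κ := by rw [hm, hy, dual_dual]
    have e1 : ext2 κ β (Sum.inl y) = ext2 κ β (Sum.inr true) := hy
    have e2 : ext2 κ β (Sum.inl (m y)) = ext2 κ β (Sum.inr false) := hmy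
    have hsw : ∀ (a b : α ⊕ Bool), ext2 κ β a = ext2 κ β b → ∀ i, ext2 κ β (swap a b i) =
        ext2 κ β i := by
      intro a b hab i
      by_cases h1 : i = a
      · rw [h1, swap_apply_left, hab]
      · by_cases h2 : i = b
        · rw [h2, swap_apply_right, hab]
        · rw [swap_apply_of_ne_of_ne h1 h2]
    have hne : m y ≠ y := m.ne y
    have t1 : (swap (Sum.inl y) (Sum.inr true) * swap (Sum.inl (m y)) (Sum.inr false) :
        Perm (α ⊕ Bool)) (Sum.inl y) = Sum.inr true := by
      rw [Perm.mul_apply, swap_apply_of_ne_of_ne (fun h => hne (Sum.inl_injective h).symm)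
        (by simp), swap_apply_left]
    have t2 : (swap (Sum.inl y) (Sum.inr true) * swap (Sum.inl (m y)) (Sum.inr false) :
        Perm (α ⊕ Bool)) (Sum.inl (m y)) = Sum.inr false := by
      rw [Perm.mul_apply, swap_apply_left, swap_apply_of_ne_of_ne (by simp) (by simp)]
    have t3 : (swap (Sum.inl y) (Sum.inr true) * swap (Sum.inl (m y)) (Sum.inr false) :
        Perm (α ⊕ Bool)) (Sum.inr true) = Sum.inl y := by
      have k1 : swap (Sum.inl (m y)) (Sum.inr false) (Sum.inr true : α ⊕ Bool) = Sum.inr true :=
        swap_apply_of_ne_of_ne (by simp) (by simp)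
      rw [Perm.mul_apply, k1, swap_apply_right]
    have t4 : (swap (Sum.inl y) (Sum.inr true) * swap (Sum.inl (m y)) (Sum.inr false) :
        Perm (α ⊕ Bool)) (Sum.inr false) = Sum.inl (m y) := by
      rw [Perm.mul_apply, swap_apply_right,
        swap_apply_of_ne_of_ne (fun h => hne (Sum.inl_injective h)) (by simp)]
    have t5 : ∀ x : α, x ≠ y → x ≠ m y →
        (swap (Sum.inl y) (Sum.inr true) * swap (Sum.inl (m y)) (Sum.inr false) :
        Perm (α ⊕ Bool)) (Sum.inl x) = Sum.inl x := by
      intro x h1 h2
      rw [Perm.mul_apply, swap_apply_of_ne_of_ne (fun h => h2 (Sum.inl_injective h)) (by simp),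
        swap_apply_of_ne_of_ne (fun h => h1 (Sum.inl_injective h)) (by simp)]
    refine ⟨swap (Sum.inl y) (Sum.inr true) * swap (Sum.inl (m y)) (Sum.inr false), ?_, t1, ?_, ?_⟩
    · intro i
      rw [Perm.mul_apply, hsw _ _ e1, hsw _ _ e2]
    · generalize (swap (Sum.inl y) (Sum.inr true) * swap (Sum.inl (m y)) (Sum.inr false) :
        Perm (α ⊕ Bool)) = t at t1 t2 t3 t4 t5
      have hcomm : ∀ i, t (PM.sum m PM.bool i) = PM.sum m PM.bool (t i) := by
        intro i
        rcases i with x | b
        · rw [PM.sum_inl]
          by_cases h1 : x = y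
          · rw [h1, t1, t2]
            rfl
          · by_cases h2 : x = m y
            · rw [h2, t2, m.inv, t1]
              rfl
            · rw [t5 x h1 h2, t5 (m x), PM.sum_inl]
              · intro h
                exact h2 (by rw [← h, m.inv])
              · intro h
                exact h1 (m.inj h)
        · cases b
          · change t (Sum.inr true) = _
            rw [t3, t4, PM.sum_inl, m.inv]
          · change t (Sum.inr false) = _
            rw [t3, t4, PM.sum_inl]
      refine PM.ext fun i => ?_
      rw [PM.map_apply, hcomm, apply_symm_apply]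
    · rw [kp_mul_left _ _ _ (hsw _ _ e1), kp_swap _ _ _ (by simp) e1, kp_swap _ _ _ (by simp) e2,
        e1, e2]
      change sgc (dual κ) * sgc κ = 1
      rcases κ with k | ⟨k, b⟩ <;> rfl
  · cases b
    · have hκ : κ = dual κ := hj
      have e1 : ext2 κ β (Sum.inr false) = ext2 κ β (Sum.inr true) := hκ
      refine ⟨swap (Sum.inr false) (Sum.inr true), ?_, ?_, ?_, ?_⟩
      · intro i
        by_cases h1 : i = Sum.inr false
        · rw [h1, swap_apply_left, e1]
        · by_cases h2 : i = Sum.inr true
          · rw [h2, swap_apply_right, e1]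
          · rw [swap_apply_of_ne_of_ne h1 h2]
      · exact swap_apply_left _ _
      · refine PM.ext fun i => ?_
        rw [PM.map_apply, symm_swap]
        rcases i with i | b
        · have k1 : ∀ x : α, swap (Sum.inr false) (Sum.inr true) (Sum.inl x : α ⊕ Bool) =
              Sum.inl x := fun x => swap_apply_of_ne_of_ne (by simp) (by simp)
          rw [k1, PM.sum_inl, k1]
        · cases b
          · rw [swap_apply_left]
            change swap (Sum.inr false) (Sum.inr true) (Sum.inr false) = Sum.inr true
            rw [swap_apply_left]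
          · rw [swap_apply_right]
            change swap (Sum.inr false) (Sum.inr true) (Sum.inr true) = Sum.inr false
            rw [swap_apply_right]
      · rw [kp_swap _ _ _ (by simp) e1]
        change sgc κ = 1
        rcases κ with k | ⟨k, b⟩
        · rfl
        · exfalso
          simp [dual] at hκ
    · refine ⟨1, fun i => rfl, rfl, rfl, kp_one _⟩

/-- the sum over all permutations is a multiple of the sum over those fixing `inr true` -/
theorem sum_split (κ : Col p r) (β : α → Col p r) (m : PM α) (hm : Cmp β m)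
    (f : PM (α ⊕ Bool) → K) :
    ∑ s : Perm (α ⊕ Bool), ((kp (ext2 κ β) s : ℤ) : K) * f (PM.map s (PM.sum m PM.bool)) =
      ((Finset.univ.filter (fun j => ext2 κ β j = dual κ)).card : K) *
      ∑ s ∈ Finset.univ.filter (fun s : Perm (α ⊕ Bool) => s (Sum.inr true) = Sum.inr true),
        ((kp (ext2 κ β) s : ℤ) : K) * f (PM.map s (PM.sum m PM.bool)) := by
  have h1 : ∀ j : α ⊕ Bool, ∑ s ∈ Finset.univ.filter
      (fun s : Perm (α ⊕ Bool) => s.symm (Sum.inr true) = j),
        ((kp (ext2 κ β) s : ℤ) : K) * f (PM.map s (PM.sum m PM.bool)) =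
      if ext2 κ β j = dual κ then
      ∑ s ∈ Finset.univ.filter (fun s : Perm (α ⊕ Bool) => s (Sum.inr true) = Sum.inr true),
        ((kp (ext2 κ β) s : ℤ) : K) * f (PM.map s (PM.sum m PM.bool)) else 0 := by
    intro j
    split_ifs with hj
    · obtain ⟨t, ht1, ht2, ht3, ht4⟩ := exists_t κ β m hm j hj
      symm
      refine Finset.sum_bij' (fun s _ => s * t) (fun s _ => s * t⁻¹) ?_ ?_ ?_ ?_ ?_
      · intro s hs
        rw [Finset.mem_filter] at hs ⊢
        refine ⟨Finset.mem_univ _, ?_⟩
        rw [symm_apply_eq, Perm.mul_apply, ht2]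
        exact hs.2.symm
      · intro s hs
        rw [Finset.mem_filter] at hs ⊢
        refine ⟨Finset.mem_univ _, ?_⟩
        have h2 := hs.2
        rw [symm_apply_eq] at h2
        rw [Perm.mul_apply, ← ht2, inv_app, ht2]
        exact h2.symm
      · intro s _
        exact mul_inv_cancel_right _ _
      · intro s _
        exact inv_mul_cancel_right _ _
      · intro s _
        rw [kp_mul_right _ _ _ ht1, ht4, mul_one]
        have h2 : PM.map (s * t) (PM.sum m PM.bool) =
            PM.map s (PM.map t (PM.sum m PM.bool)) := rfl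
        rw [h2, ht3]
    · refine Finset.sum_eq_zero fun s hs => ?_
      rw [Finset.mem_filter] at hs
      rw [kp_of_not, Int.cast_zero, zero_mul]
      intro h
      apply hj
      have h2 := h (s.symm (Sum.inr true))
      rw [apply_symm_apply, hs.2] at h2
      rw [← h2]
      rfl
  rw [← Finset.sum_fiberwise Finset.univ (fun s : Perm (α ⊕ Bool) => s.symm (Sum.inr true))]
  rw [Finset.sum_congr rfl (fun j _ => h1 j), ← Finset.sum_filter, Finset.sum_const, nsmul_eq_mul]

/-- one colour -/
theorem down_one [CharZero K] {f : PM (α ⊕ Bool) → K} (hf : InN p r f) (κ : Col p r)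
    (β : α → Col p r) (m : PM α) (hm : Cmp β m) :
    ∑ s : Perm α, ((kp β s : ℤ) : K) * (((sgc κ : ℤ) : K) * f (PM.sum (PM.map s m) PM.bool) +
      ∑ x : α, if β x = κ then T7.tr (swap (Sum.inl x) (Sum.inr false) : Perm (α ⊕ Bool)) f
        (PM.sum (PM.map s m) PM.bool) else 0) = 0 := by
  have h1 := hf (ext2 κ β) (PM.sum m PM.bool) (hm.ext2 κ)
  rw [sum_split κ β m hm f] at h1
  have h2 : ((Finset.univ.filter (fun j => ext2 κ β j = dual κ)).card : K) ≠ 0 := by
    rw [Nat.cast_ne_zero]
    refine (Finset.card_pos.2 ⟨Sum.inr true, ?_⟩).ne'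
    rw [Finset.mem_filter]
    exact ⟨Finset.mem_univ _, rfl⟩
  have h3 := (mul_eq_zero.1 h1).resolve_left h2
  rw [sum_fix] at h3
  have h4 : ((sgc κ : ℤ) : K) * ((sgc κ : ℤ) : K) = 1 := by
    rcases κ with k | ⟨k, b⟩ <;> simp [sgc]
  have h5 := congrArg (fun t => ((sgc κ : ℤ) : K) * t) h3
  rw [mul_zero] at h5
  refine Eq.trans ?_ h5
  rw [Finset.mul_sum]
  refine Finset.sum_congr rfl fun s _ => ?_
  have h6 : PM.map (sumCongr s (1 : Perm Bool)) (PM.sum m PM.bool) =
      PM.sum (PM.map s m) PM.bool := by
    refine PM.ext fun i => ?_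
    rcases i with i | i <;> rfl
  have h7 : kp (ext2 κ β) (sumCongr s 1) = kp β s := kp_sum (ext2 κ β) s
  rw [h6, h7, mul_add, mul_add, Finset.mul_sum, Finset.mul_sum]
  congr 1
  · ring
  · refine Finset.sum_congr rfl fun x _ => ?_
    have h8 : PM.map (swap (Sum.inl x) (Sum.inr false) * sumCongr s 1) (PM.sum m PM.bool) =
        PM.map (swap (Sum.inl x) (Sum.inr false)) (PM.sum (PM.map s m) PM.bool) := by
      rw [← h6]
      rfl
    rw [h8]
    by_cases hs : ∀ i, β (s i) = β i
    · have hs' : ∀ i, ext2 κ β (sumCongr s (1 : Perm Bool) i) = ext2 κ β i := by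
        intro i
        rcases i with i | i
        · exact hs i
        · rfl
      rw [kp_mul_right _ _ _ hs', h7]
      by_cases hx : β x = κ
      · rw [if_pos hx, kp_swap _ _ _ (by simp) (show ext2 κ β (Sum.inl x) =
          ext2 κ β (Sum.inr false) from hx), tr_apply, symm_swap]
        have h9 : sgc (ext2 κ β (Sum.inl x)) = sgc κ := congrArg sgc hx
        rw [h9]
        push_cast
        linear_combination (-((kp β s : ℤ) : K) *
          f (PM.map (swap (Sum.inl x) (Sum.inr false)) (PM.sum (PM.map s m) PM.bool))) * h4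
      · rw [if_neg hx, mul_zero, kp_of_not (ext2 κ β) (swap (Sum.inl x) (Sum.inr false))]
        · simp
        · intro h
          apply hx
          have h10 := h (Sum.inr false)
          rw [swap_apply_right] at h10
          exact h10
    · rw [kp_of_not _ _ hs, kp_of_not (ext2 κ β) (swap (Sum.inl x) (Sum.inr false) *
        sumCongr s 1)]
      · simp
      · intro h
        apply hs
        have hx : β x = κ := by
          have h10 := h (Sum.inr false)
          rw [Perm.mul_apply] at h10
          have h11 : (sumCongr s (1 : Perm Bool)) (Sum.inr false) = Sum.inr false := rfl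
          rw [h11, swap_apply_right] at h10
          exact h10
        intro i
        have h12 := h (Sum.inl i)
        rw [Perm.mul_apply] at h12
        have h13 : (sumCongr s (1 : Perm Bool)) (Sum.inl i) = Sum.inl (s i) := rfl
        rw [h13] at h12
        by_cases h14 : s i = x
        · rw [h14, swap_apply_left] at h12
          rw [h14, hx]
          exact h12
        · rw [swap_apply_of_ne_of_ne (fun h15 => h14 (Sum.inl_injective h15)) (by simp)] at h12
          exact h12

theorem InN.down [CharZero K] {f : PM (α ⊕ Bool) → K} (hf : InN p r f) :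
    InN p r (dn ((p : K) - 2 * r) f) := by
  intro β m hm
  have h1 := Finset.sum_congr rfl (fun κ (_ : κ ∈ (Finset.univ : Finset (Col p r))) =>
    down_one hf κ β m hm)
  rw [Finset.sum_const_zero, Finset.sum_comm] at h1
  rw [← h1]
  refine Finset.sum_congr rfl fun s _ => ?_
  rw [← Finset.mul_sum]
  congr 1
  rw [Finset.sum_add_distrib, ← Finset.sum_mul, Finset.sum_comm]
  unfold dn
  congr 1
  · congr 1
    rw [Fintype.sum_sum_type, Fintype.sum_prod_type]
    simp [sgc]
    ring
  · refine Finset.sum_congr rfl fun x _ => ?_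
    rw [Finset.sum_ite_eq Finset.univ (β x), if_pos (Finset.mem_univ _)]

end T7n
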