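import Pool.Agent.W_868bb7_t7n.NDown

set_option autoImplicit false

/-!
# NSys: the system `NS K p r` with parameter `p - 2 r`
-/

namespace T7n

open Equiv T7

variable (K : Type*) [Field K] [CharZero K]

omit [CharZero K] in
variable {K} in
/-- independence of the instances -/
theorem InN_inst {α : Type} {p r : ℕ} {x : PM α → K} {i i' : Fintype α} {j j' : DecidableEq α}
    (h : @InN α i j K _ p r x) : @InN α i' j' K _ p r x := by
  obtain rfl : i = i' := Subsingleton.elim _ _
  obtain rfl : j = j' := Subsingleton.elim _ _
  exact h

/-- the relations between the matchings in the super space `K^(p|2r)` -/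
def NS (p r : ℕ) : Sys K ((p : K) - 2 * r) where
  R α _ :=
    { carrier := {x | ∀ (_ : Fintype α) (_ : DecidableEq α), InN p r x}
      add_mem' := fun hx hy i j => (hx i j).add (hy i j)
      zero_mem' := fun _ _ => InN.zero
      smul_mem' := fun c _ hx i j => (hx i j).smul c }
  map := by
    intro α β _ _ e f hf i j
    letI := Fintype.ofFinite α
    letI := Classical.decEq α
    exact (hf _ _).tr e
  up := by
    intro α _ f hf i j
    letI := Fintype.ofFinite α
    letI := Classical.decEq α
    exact InN_inst (K := K) (hf _ _).up
  down := by
    intro α i₀ j₀ f hf i j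
    obtain rfl : i₀ = i := Subsingleton.elim _ _
    obtain rfl : j₀ = j := Subsingleton.elim _ _
    exact InN_inst (K := K) (hf inferInstance inferInstance).down
  zero := by
    intro α _ _
    rw [Submodule.eq_bot_iff]
    intro x hx
    letI := Fintype.ofFinite α
    letI := Classical.decEq α
    funext m
    have h := hx inferInstance inferInstance (fun i => isEmptyElim i) m (fun i => isEmptyElim i)
    have h1 : ∀ s : Perm α, s = 1 := fun s => Subsingleton.elim _ _
    rw [Fintype.sum_eq_single (1 : Perm α) (fun s hs => absurd (h1 s) hs), kp_one] at h
    have h2 : PM.map (1 : Perm α) m = m := rfl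
    rw [h2, Int.cast_one, one_mul] at h
    exact h

variable {K}

theorem mem_NS {p r : ℕ} {α : Type} [Fintype α] [DecidableEq α] (x : PM α → K) :
    x ∈ (NS K p r).R α ↔ InN p r x := by
  constructor
  · intro h
    exact h inferInstance inferInstance
  · intro h i j
    exact InN_inst (K := K) h

end T7n
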