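import Pool.Agent.W_868bb7_t7n.NSys
import Pool.Agent.W_868bb7_h94.NoMixed

set_option autoImplicit false

/-!
# NType: vectors of rectangular type and the system `NS K p r`
-/

namespace T7n

open Equiv T7

variable {K : Type*} [Field K] [CharZero K]

/-- a block invariant vector with at most `p` blocks that does not vanish at an inside matching is not in
`InN p r` -/
theorem not_InN_of_blocks {α : Type*} [Fintype α] [DecidableEq α] {a p r : ℕ} (hap : a ≤ p)
    (b : α → Fin a) (x : PM α → K) (m : PM α)
    (hx : ∀ s : Perm α, (∀ i, b (s i) = b i) → x (PM.map s m) = x m)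
    (hm : ∀ i, b (m i) = b i) (h0 : x m ≠ 0) : ¬ InN p r x := by
  intro h
  have h1 := h (fun i => Sum.inl (Fin.castLE hap (b i))) m (by
    intro i
    change (Sum.inl _ : Col p r) = Sum.inl _
    rw [hm i])
  have h2 : ∀ s : Perm α, ((kp (fun i => (Sum.inl (Fin.castLE hap (b i)) : Col p r)) s : ℤ) : K) *
      x (PM.map s m) = if ∀ i, b (s i) = b i then x m else 0 := by
    intro s
    split_ifs with hs
    · rw [kp_even _ _ (fun i => by rw [hs i]) (fun i => rfl), hx s hs, Int.cast_one, one_mul]
    · rw [kp_of_not, Int.cast_zero, zero_mul]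
      intro h3
      apply hs
      intro i
      have h4 := Sum.inl_injective (h3 i)
      exact Fin.castLE_injective hap h4
  rw [Finset.sum_congr rfl (fun s _ => h2 s), ← Finset.sum_filter, Finset.sum_const,
    nsmul_eq_mul] at h1
  rcases mul_eq_zero.1 h1 with h3 | h3
  · rw [Nat.cast_eq_zero, Finset.card_eq_zero] at h3
    have h4 : (1 : Perm α) ∈ Finset.univ.filter (fun s : Perm α => ∀ i, b (s i) = b i) := by
      rw [Finset.mem_filter]
      exact ⟨Finset.mem_univ _, fun i => rfl⟩
    rw [h3] at h4
    exact absurd h4 (Finset.notMem_empty _)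
  · exact h0 h3

/-- numbers of the colours -/
def enc (p : ℕ) {p' r : ℕ} : Col p' r → ℕ
  | .inl k => k
  | .inr (k, b) => p + 2 * k + (if b = true then 1 else 0)

theorem enc_inj {p p' r : ℕ} (hp : p' ≤ p) {c d : Col p' r} (h : enc p c = enc p d) : c = d := by
  rcases c with k | ⟨k, b⟩ <;> rcases d with k' | ⟨k', b'⟩
  · simp only [enc] at h
    rw [Fin.ext h]
  · simp only [enc] at h
    omega
  · simp only [enc] at h
    omega
  · cases b <;> cases b' <;> simp only [enc] at h
    · have h1 : k = k' := Fin.ext (by simp at h; omega)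
      rw [h1]
    · simp at h
      omega
    · simp at h
      omega
    · have h1 : k = k' := Fin.ext (by simp at h; omega)
      rw [h1]

open Pool.Agent.W_868bb7_h94 Pool.Agent.W_MP_868bb7_ag in
theorem enc_cs {p p' r : ℕ} (hp : p' ≤ p) (c : Col p' r) :
    cs (decide (p ≤ enc p c)) = sgc c := by
  rcases c with k | ⟨k, b⟩
  · have h1 : ¬ p ≤ enc p (Sum.inl k : Col p' r) := by
      simp only [enc]
      omega
    rw [decide_eq_false h1]
    rfl
  · have h1 : p ≤ enc p (Sum.inr (k, b) : Col p' r) := by
      simp only [enc]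
      omega
    rw [decide_eq_true h1]
    rfl

theorem enc_lt {p q p' r : ℕ} (hp : p' ≤ p) (hq : 2 * r ≤ q) (c : Col p' r) :
    enc p c < p + q := by
  rcases c with k | ⟨k, b⟩
  · simp only [enc]
    omega
  · simp only [enc]
    split_ifs <;> omega

open Pool.Agent.W_868bb7_h94 Pool.Agent.W_MP_868bb7_ag in
/-- a function on the permutations with star sums `q - p` is killed by the averages over `p'` symmetric and
`2 r` alternating classes, `p' ≤ p`, `2 r ≤ q` -/
theorem avg_zero {N : ℕ} (p q p' r : ℕ) (hp : p' ≤ p) (hq : 2 * r ≤ q)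
    (hN : N = (p + 1) * (q + 1)) (x : Perm (Fin N) → K)
    (hx : ∀ (k : Fin N) (g : Perm (Fin N)),
      ∑ j ∈ Finset.univ.erase k, x (swap j k * g) = ((q : K) - p) * x g)
    (β : Fin N → Col p' r) (g : Perm (Fin N)) :
    ∑ s : Perm (Fin N), ((kp β s : ℤ) : K) * x (s * g) = 0 := by
  subst hN
  have h1 := no_mixed p q (fun g => ∑ s, ((kp β s : ℤ) : K) * x (s * g)) ?_
    (fun i => enc p (β i)) (fun i => enc_lt hp hq _) ?_
  · exact congrFun h1 g
  · intro k g
    rw [Finset.sum_comm, Finset.mul_sum]
    refine Finset.sum_congr rfl fun s _ => ?_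
    rw [← Finset.mul_sum]
    have h2 := hx (s k) (s * g)
    have h3 : ∑ j ∈ Finset.univ.erase k, x (s * (swap j k * g)) =
        ∑ j ∈ Finset.univ.erase (s k), x (swap j (s k) * (s * g)) := by
      refine Finset.sum_bij' (fun j _ => s j) (fun j _ => s.symm j) ?_ ?_ ?_ ?_ ?_
      · intro j hj
        rw [Finset.mem_erase] at hj ⊢
        exact ⟨fun h' => hj.1 (s.injective h'), Finset.mem_univ _⟩
      · intro j hj
        rw [Finset.mem_erase] at hj ⊢
        refine ⟨fun h' => hj.1 ?_, Finset.mem_univ _⟩
        rw [← h', Equiv.apply_symm_apply]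
      · intro j _
        exact Equiv.symm_apply_apply _ _
      · intro j _
        exact Equiv.apply_symm_apply _ _
      · intro j _
        congr 1
        rw [Equiv.swap_apply_apply]
        simp only [mul_assoc, inv_mul_cancel_left]
    rw [h3, h2]
    ring
  · intro l j hj k hk hjk g
    have hj' : enc p (β j) = l := by simpa [cl] using hj
    have hk' : enc p (β k) = l := by simpa [cl] using hk
    have hb : β j = β k := enc_inj hp (hj'.trans hk'.symm)
    have hs : ∀ i, β (swap j k i) = β i := by
      intro i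
      by_cases h1 : i = j
      · rw [h1, swap_apply_left, hb]
      · by_cases h2 : i = k
        · rw [h2, swap_apply_right, hb]
        · rw [swap_apply_of_ne_of_ne h1 h2]
    change ∑ s, ((kp β s : ℤ) : K) * x (s * (swap j k * g)) = _ * ∑ s, _
    rw [Finset.mul_sum, ← Equiv.sum_comp (Equiv.mulRight (swap j k))]
    refine Finset.sum_congr rfl fun s _ => ?_
    rw [Equiv.coe_mulRight, kp_mul_right β _ _ hs, kp_swap β j k hjk hb, ← enc_cs hp, hj']
    have h4 : s * swap j k * (swap j k * g) = s * g := by
      rw [mul_assoc, ← mul_assoc (swap j k), swap_mul_self, one_mul]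
    rw [h4]
    push_cast
    ring

/-- star functions on the matchings -/
theorem InN_of_star {α : Type*} [Fintype α] [DecidableEq α] (p q p' r : ℕ) (hp : p' ≤ p)
    (hq : 2 * r ≤ q) (hN : Fintype.card α = (p + 1) * (q + 1)) (x : PM α → K)
    (hx : ∀ k : α, Y k x = ((q : K) - p) • x) : InN p' r x := by
  intro β m hm
  obtain ⟨e⟩ : Nonempty (α ≃ Fin (Fintype.card α)) := ⟨Fintype.equivFin α⟩
  have h1 := avg_zero (K := K) p q p' r hp hq hN
    (fun g => x (PM.map (e.symm.permCongr g) m)) ?_ (fun i => β (e.symm i)) 1
  · rw [← Equiv.sum_comp (e.symm.permCongr)]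
    refine Eq.trans ?_ h1
    refine Finset.sum_congr rfl fun s _ => ?_
    rw [kp_trans, mul_one]
  · intro k g
    have h2 := congrFun (hx (e.symm k)) (PM.map (e.symm.permCongr g) m)
    rw [Y, Finset.sum_apply] at h2
    rw [Pi.smul_apply, smul_eq_mul] at h2
    rw [← h2]
    refine Finset.sum_bij' (fun j _ => e.symm j) (fun j _ => e j) ?_ ?_ ?_ ?_ ?_
    · intro j hj
      rw [Finset.mem_erase] at hj ⊢
      exact ⟨fun h' => hj.1 (e.symm.injective h'), Finset.mem_univ _⟩
    · intro j hj
      rw [Finset.mem_erase] at hj ⊢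
      refine ⟨fun h' => hj.1 ?_, Finset.mem_univ _⟩
      rw [← h', symm_apply_apply]
    · intro j _
      exact apply_symm_apply _ _
    · intro j _
      exact symm_apply_apply _ _
    · intro j _
      rw [tr_apply, symm_swap, PM.map_map]
      congr 2
      have h3 : e.symm.permCongr (swap j k * g) =
          swap (e.symm k) (e.symm j) * e.symm.permCongr g := by
        rw [swap_comm (e.symm k) (e.symm j)]
        ext i
        simp [permCongr_apply, Perm.mul_apply, swap_apply_def]
        split_ifs <;> simp_all
      rw [h3]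
      rfl

/-- vectors of type `(a, c)`, `a ≥ p + 1`, `c ≥ 2 r + 1` -/
theorem InN_of_type {a c p r : ℕ} (ha : p + 1 ≤ a) (hc : 2 * r + 1 ≤ c)
    (v : PM (Fin a × Fin c) → K) (hv : IsType (Prod.fst : Fin a × Fin c → Fin a) v) :
    InN p r v := by
  refine InN_of_star (a - 1) (c - 1) p r (by omega) (by omega) ?_ v ?_
  · rw [Fintype.card_prod, Fintype.card_fin, Fintype.card_fin]
    congr 1 <;> omega
  · intro k
    have h1 : Y k v = ∑ s : Fin a, ∑ i ∈ (Finset.univ.erase k).filter (fun i => i.1 = s),
        T7.tr (swap k i) v := by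
      rw [Y]
      exact (Finset.sum_fiberwise _ _ _).symm
    have h2 : ∀ s ∈ (Finset.univ : Finset (Fin a)), s ≠ k.1 →
        ∑ i ∈ (Finset.univ.erase k).filter (fun i => i.1 = s), T7.tr (swap k i) v = -v := by
      intro s _ hs
      have h3 : (Finset.univ.erase k).filter (fun i : Fin a × Fin c => i.1 = s) =
          Finset.univ.filter (fun i : Fin a × Fin c => i.1 = s) := by
        ext i
        simp only [Finset.mem_filter, Finset.mem_erase, Finset.mem_univ, and_true, true_and]
        refine ⟨fun h => h.2, fun h => ⟨?_, h⟩⟩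
        rintro rfl
        exact hs h.symm
      have h4 := hv.rel (s, k.2) k (by simpa using hs)
      rw [h3]
      have h5 : ∑ i ∈ Finset.univ.filter (fun i : Fin a × Fin c => i.1 = s), T7.tr (swap k i) v =
          ∑ i ∈ Finset.univ.filter (fun i : Fin a × Fin c => i.1 = (s, k.2).1),
            T7.tr (swap i k) v :=
        Finset.sum_congr rfl fun i _ => by rw [swap_comm]
      rw [h5]
      exact (neg_eq_of_add_eq_zero_right h4).symm
    have h3 : ∑ i ∈ (Finset.univ.erase k).filter (fun i : Fin a × Fin c => i.1 = k.1),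
        T7.tr (swap k i) v = ((c : K) - 1) • v := by
      rw [Finset.sum_congr rfl (fun i hi => hv.inv k i (Finset.mem_filter.1 hi).2.symm),
        Finset.sum_const]
      have h4 : ((Finset.univ.erase k).filter (fun i : Fin a × Fin c => i.1 = k.1)).card =
          c - 1 := by
        rw [Finset.filter_erase, Finset.card_erase_of_mem (by simp)]
        congr 1
        have h5 : Finset.univ.filter (fun i : Fin a × Fin c => i.1 = k.1) =
            Finset.univ.map ⟨fun t : Fin c => (k.1, t), fun t t' h => (Prod.mk.inj h).2⟩ := by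
          ext ⟨i, j⟩
          simp only [Finset.mem_filter, Finset.mem_univ, true_and, Finset.mem_map,
            Function.Embedding.coeFn_mk, Prod.mk.injEq]
          constructor
          · rintro rfl
            exact ⟨j, rfl, rfl⟩
          · rintro ⟨t, h1, h2⟩
            exact h1.symm
        rw [h5, Finset.card_map, Finset.card_univ, Fintype.card_fin]
      rw [h4, ← Nat.cast_smul_eq_nsmul K, Nat.cast_sub (by omega), Nat.cast_one]
    rw [h1, ← Finset.add_sum_erase _ _ (Finset.mem_univ k.1), h3,
      Finset.sum_congr rfl (fun s hs => h2 s (Finset.mem_univ _) (Finset.ne_of_mem_erase hs)),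
      Finset.sum_const, Finset.card_erase_of_mem (Finset.mem_univ _), Finset.card_univ,
      Fintype.card_fin, ← Nat.cast_smul_eq_nsmul K, smul_neg, ← sub_eq_add_neg, ← sub_smul]
    congr 1
    rw [Nat.cast_sub (by omega), Nat.cast_sub (by omega)]
    ring

end T7n
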