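import Pool.Agent.W_868bb7_t7n.KpA

set_option autoImplicit false

/-!
# NUp: `InN` is stable under bijections and under adding a chord
-/

namespace T7n

open Equiv T7

variable {K : Type*} [Field K]
variable {α γ : Type*} [Fintype α] [DecidableEq α] [Fintype γ] [DecidableEq γ] {p r : ℕ}

theorem Cmp.map {β : α → Col p r} {m : PM α} (h : Cmp β m) (s : Perm α)
    (hs : ∀ i, β (s i) = β i) : Cmp β (PM.map s m) := by
  intro i
  rw [PM.map_apply, hs, h]
  congr 1
  have h1 := hs (s.symm i)
  rw [apply_symm_apply] at h1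
  exact h1.symm

theorem InN.tr {x : PM α → K} (hx : InN p r x) (e : α ≃ γ) : InN p r (T7.tr e x) := by
  intro β m hm
  have h1 : Cmp (fun i => β (e i)) (PM.map e.symm m) := by
    intro i
    change β (e (e.symm (m (e.symm.symm i)))) = _
    rw [apply_symm_apply, symm_symm, hm]
  have h2 := hx (fun i => β (e i)) (PM.map e.symm m) h1
  rw [← h2, ← (e.permCongr).sum_comp]
  refine Finset.sum_congr rfl fun s _ => ?_
  rw [kp_trans, tr_apply]
  congr 2
  ext i
  simp [permCongr_apply, permCongr_def]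

/-- averaging over the permutations of the left summand -/
theorem avg_sum [CharZero K] (β : α ⊕ γ → Col p r) (F : PM (α ⊕ γ) → K)
    (hF : ∀ m' : PM (α ⊕ γ), Cmp β m' → ∑ h : Perm α,
      ((kp (fun i => β (Sum.inl i)) h : ℤ) : K) * F (PM.map (sumCongr h (1 : Perm γ)) m') = 0)
    (m : PM (α ⊕ γ)) (hm : Cmp β m) :
    ∑ s : Perm (α ⊕ γ), ((kp β s : ℤ) : K) * F (PM.map s m) = 0 := by
  have key : ∀ h : Perm α, ((kp (fun i => β (Sum.inl i)) h : ℤ) : K) *
      ∑ s : Perm (α ⊕ γ), ((kp β s : ℤ) : K) * F (PM.map s m) =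
      (∑ s : Perm (α ⊕ γ), ((kp β s : ℤ) : K) *
        (((kp (fun i => β (Sum.inl i)) h : ℤ) : K) * ((kp (fun i => β (Sum.inl i)) h : ℤ) : K) *
          F (PM.map (sumCongr h (1 : Perm γ)) (PM.map s m)))) := by
    intro h
    by_cases hh : ∀ i : α, β (Sum.inl (h i)) = β (Sum.inl i)
    · have hh' : ∀ i, β (sumCongr h (1 : Perm γ) i) = β i := by
        intro i
        rcases i with i | i
        · exact hh i
        · rfl
      rw [Finset.mul_sum]
      rw [← Equiv.sum_comp (Equiv.mulLeft (sumCongr h (1 : Perm γ)))]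
      refine Finset.sum_congr rfl fun s _ => ?_
      rw [Equiv.coe_mulLeft, kp_mul_left β _ _ hh', kp_sum]
      push_cast
      have h3 : PM.map (sumCongr h (1 : Perm γ) * s) m =
          PM.map (sumCongr h (1 : Perm γ)) (PM.map s m) := rfl
      rw [h3]
      ring
    · rw [kp_of_not _ _ hh]
      simp
  have hz : ∀ s : Perm (α ⊕ γ), ∑ h : Perm α, ((kp β s : ℤ) : K) *
      ((kp (fun i => β (Sum.inl i)) h : ℤ) : K) *
          F (PM.map (sumCongr h (1 : Perm γ)) (PM.map s m)) = 0 := by
    intro s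
    by_cases hs : ∀ i, β (s i) = β i
    · have h4 := hF _ (hm.map s hs)
      simp only [mul_assoc]
      rw [← Finset.mul_sum, h4, mul_zero]
    · rw [kp_of_not _ _ hs]
      simp
  have hsum := Finset.sum_congr rfl (fun h (_ : h ∈ (Finset.univ : Finset (Perm α))) =>
    congrArg (fun t => ((kp (fun i => β (Sum.inl i)) h : ℤ) : K) * t) (key h))
  have hL : ∑ h : Perm α, ((kp (fun i => β (Sum.inl i)) h : ℤ) : K) *
      (((kp (fun i => β (Sum.inl i)) h : ℤ) : K) *
      ∑ s : Perm (α ⊕ γ), ((kp β s : ℤ) : K) * F (PM.map s m)) = 0 := by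
    rw [hsum]
    have : ∀ h : Perm α, ((kp (fun i => β (Sum.inl i)) h : ℤ) : K) *
        (∑ s : Perm (α ⊕ γ), ((kp β s : ℤ) : K) *
        (((kp (fun i => β (Sum.inl i)) h : ℤ) : K) * ((kp (fun i => β (Sum.inl i)) h : ℤ) : K) *
          F (PM.map (sumCongr h (1 : Perm γ)) (PM.map s m)))) =
        ∑ s : Perm (α ⊕ γ), ((kp β s : ℤ) : K) * ((kp (fun i => β (Sum.inl i)) h : ℤ) : K) *
          F (PM.map (sumCongr h (1 : Perm γ)) (PM.map s m)) := by
      intro h
      rw [Finset.mul_sum]
      refine Finset.sum_congr rfl fun s _ => ?_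
      by_cases hh : ∀ i : α, β (Sum.inl (h i)) = β (Sum.inl i)
      · have h7 := kp_sq (fun i => β (Sum.inl i)) h hh
        have h8 : ((kp (fun i => β (Sum.inl i)) h : ℤ) : K) *
            ((kp (fun i => β (Sum.inl i)) h : ℤ) : K) = 1 := by exact_mod_cast h7
        linear_combination (((kp β s : ℤ) : K) * ((kp (fun i => β (Sum.inl i)) h : ℤ) : K) *
          F (PM.map (sumCongr h (1 : Perm γ)) (PM.map s m))) * h8
      · rw [kp_of_not _ _ hh]
        simp
    simp only [this]
    rw [Finset.sum_comm]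
    exact Finset.sum_eq_zero fun s _ => hz s
  have hR : ∑ h : Perm α, ((kp (fun i => β (Sum.inl i)) h : ℤ) : K) *
      (((kp (fun i => β (Sum.inl i)) h : ℤ) : K) *
      ∑ s : Perm (α ⊕ γ), ((kp β s : ℤ) : K) * F (PM.map s m)) =
      ((∑ h : Perm α, (kp (fun i => β (Sum.inl i)) h) * (kp (fun i => β (Sum.inl i)) h) : ℤ) : K) *
      ∑ s : Perm (α ⊕ γ), ((kp β s : ℤ) : K) * F (PM.map s m) := by
    push_cast
    rw [Finset.sum_mul]
    refine Finset.sum_congr rfl fun h _ => ?_
    ring
  rw [hR] at hL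
  rcases mul_eq_zero.1 hL with h0 | h0
  · exfalso
    have h1 : (∑ h : Perm α, (kp (fun i => β (Sum.inl i)) h) *
        (kp (fun i => β (Sum.inl i)) h) : ℤ) = 0 := by exact_mod_cast h0
    have h2 := (Finset.sum_eq_zero_iff_of_nonneg (fun h _ => mul_self_nonneg _)).1 h1 1
      (Finset.mem_univ _)
    rw [kp_one] at h2
    exact absurd h2 (by norm_num)
  · exact h0

theorem InN.up {x : PM α → K} [CharZero K] (hx : InN p r x) : InN p r (T7.up x) := by
  intro β m hm
  refine avg_sum β (T7.up x) (fun m' hm' => ?_) m hm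
  by_cases hc : m' (Sum.inr false) = Sum.inr true
  · have h1 : ∀ i : α, ∃ j : α, m' (Sum.inl i) = Sum.inl j := by
      intro i
      rcases hj : m' (Sum.inl i) with j | j
      · exact ⟨j, rfl⟩
      · exfalso
        have h2 : Sum.inl i = m' (Sum.inr j) := by rw [← hj, m'.inv]
        rcases j with _ | _
        · rw [hc] at h2
          exact absurd h2 (by simp)
        · rw [← hc, m'.inv] at h2
          exact absurd h2 (by simp)
    obtain ⟨m1, m2, rfl⟩ := m'.exists_sum h1
    have h3 : Cmp (fun i => β (Sum.inl i)) m1 := fun i => hm' (Sum.inl i)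
    have h4 := hx _ m1 h3
    have h5 : ∀ h : Perm α, T7.up x (PM.map (sumCongr h (1 : Perm Bool)) (PM.sum m1 m2)) =
        x (PM.map h m1) := by
      intro h
      have h6 : PM.map (sumCongr h (1 : Perm Bool)) (PM.sum m1 m2) =
          PM.sum (PM.map h m1) m2 := by
        ext i
        rcases i with i | i <;> rfl
      rw [h6, up_sum]
    simp only [h5]
    exact h4
  · refine Finset.sum_eq_zero fun h _ => ?_
    rw [up_of_ne, mul_zero]
    intro h1
    apply hc
    have h2 : (sumCongr h (1 : Perm Bool)) (m' (Sum.inr false)) = Sum.inr true := h1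
    rcases hj : m' (Sum.inr false) with j | j
    · rw [hj] at h2
      exact absurd h2 (by simp)
    · rw [hj] at h2
      exact h2

end T7n
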