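import Pool.Agent.W_868bb7_h94.MinDeg
import Pool.Agent.W_868bb7_h94.Stat
import Pool.Agent.W_868bb7_h94.ShiftN

set_option autoImplicit false

/-!
# QuantGL: the degrees in which the permutations of `M^{⊗ n}` are dependent
-/

namespace T7n

open CategoryTheory MonoidalCategory Equiv Pool.Agent.W_MP_868bb7_ag Pool.Agent.W_868bb7_h94

universe v u w

variable (K : Type w) [Field K] {C : Type u} [Category.{v} C] [MonoidalCategory C]
  [Preadditive C] [Linear K C] [MonoidalPreadditive C] [MonoidalLinear K C]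
  [SymmetricCategory C]

/-- a relation in degree `n` gives a relation in degree `n + 1` -/
theorem Jm_up (M : C) (n : ℕ) (h : Jm K M n ≠ ⊥) : Jm K M (n + 1) ≠ ⊥ := by
  classical
  obtain ⟨x, hx, hx0⟩ := Submodule.exists_mem_ne_zero_of_ne_bot h
  have hx' : Phi K M n x = 0 := hx
  let F : G n ↪ G (n + 1) := ⟨shift, ShiftN_inj⟩
  let y : G (n + 1) → K := fun s => if h : ∃ t : G n, shift t = s then x h.choose else 0
  have hy : ∀ t, y (shift t) = x t := by
    intro t
    have h1 : ∃ t' : G n, shift t' = shift t := ⟨t, rfl⟩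
    change (if h : ∃ t' : G n, shift t' = shift t then x h.choose else 0) = x t
    rw [dif_pos h1, ShiftN_inj h1.choose_spec]
  have hy0 : ∀ s, (¬ ∃ t : G n, shift t = s) → y s = 0 := fun s hs => dif_neg hs
  have h1 : Phi K M (n + 1) y = M ◁ Phi K M n x := by
    unfold Phi
    have h2 : M ◁ (∑ σ : G n, x σ • act M n σ) = ∑ σ : G n, x σ • (M ◁ act M n σ) := by
      have h := (tensorLeft M).map_sum (fun e : G n => x e • act M n e) Finset.univ
      refine h.trans (Finset.sum_congr rfl fun e _ => ?_)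
      exact (tensorLeft M).map_smul _ _
    rw [h2, ← Finset.sum_subset (Finset.subset_univ (Finset.univ.map F))]
    · rw [Finset.sum_map]
      refine Finset.sum_congr rfl fun t _ => ?_
      change y (shift t) • act M (n + 1) (shift t) = _
      rw [hy, act_shift]
      rfl
    · intro s _ hs
      rw [hy0 s, zero_smul]
      rintro ⟨t, rfl⟩
      exact hs (Finset.mem_map.2 ⟨t, Finset.mem_univ _, rfl⟩)
  have h3 : y ∈ Jm K M (n + 1) := by
    change Phi K M (n + 1) y = 0
    rw [h1, hx']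
    exact MonoidalPreadditive.whiskerLeft_zero
  intro hb
  rw [hb, Submodule.mem_bot] at h3
  apply hx0
  funext t
  rw [← hy t, h3]
  rfl

variable [RightRigidCategory C] [UnitK K C]

theorem quantGL [CharZero K] (M : C) (p q : ℕ) (hS : Signed K M p q) (h : ∃ n, Jm K M n ≠ ⊥) :
    ∃ k : ℕ, ∀ n, Jm K M n ≠ ⊥ ↔ (p + 1 + k) * (q + 1 + k) ≤ n := by
  classical
  obtain ⟨⟨π, hπ⟩, hd⟩ := hS
  have hdim : tr K (𝟙 M) = (p : K) - q := tr_unique K _ _ hd
  have hup : ∀ n m, Jm K M n ≠ ⊥ → n ≤ m → Jm K M m ≠ ⊥ := by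
    intro n m hn hnm
    induction m, hnm using Nat.le_induction with
    | base => exact hn
    | succ m _ ih => exact Jm_up K M m ih
  obtain ⟨m, h1, h2⟩ : ∃ m, Jm K M m = ⊥ ∧ Jm K M (m + 1) ≠ ⊥ := by
    have hs := Nat.find_spec h
    have hmin : ∀ k < Nat.find h, Jm K M k = ⊥ := fun k hk => by
      by_contra hc
      exact Nat.find_min h hk hc
    generalize Nat.find h = n0 at hs hmin
    cases n0 with
    | zero => exact absurd (Jm_zero K M) hs
    | succ m => exact ⟨m, hmin m (Nat.lt_succ_self m), hs⟩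
  have hiff : ∀ n, Jm K M n ≠ ⊥ ↔ m + 1 ≤ n := by
    intro n
    constructor
    · intro hn
      by_contra hlt
      exact hup n m hn (by omega) h1
    · exact hup _ n h2
  have hstar : ∀ y ∈ Jm K M (m + 1), Star ((q : K) - p) y := by
    intro y hy
    have h4 := star_of_min K M m h1 y hy
    rwa [hdim, neg_sub] at h4
  have hge : (p + 1) * (q + 1) ≤ m + 1 := by
    by_contra hlt
    push Not at hlt
    obtain ⟨x, hx, hx0⟩ := Submodule.exists_mem_ne_zero_of_ne_bot h2
    obtain ⟨e, he, t1, t2, -, -⟩ := forward K M π p q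
      (fun k hk => tr_unique K _ _ (hπ k hk)) hdim (m + 1) (by nlinarith) x hx0 hx
    exact h2 (Jm_below K M e he p q t1 t2 (m + 1) hlt)
  obtain ⟨a, b, hab, ha1, heq, -⟩ := sorted_exists (fun n => Jm K M n) (m + 1)
    (by omega) (Jm_L K M (m + 1)) (Jm_R K M (m + 1)) h2 ((q : K) - p) hstar true
  have hct : ((cs true : ℤ) : K) = -1 := by simp [cs]
  rw [hct] at heq
  have hz : ((m : ℤ) + 1) = (a : ℤ) * ((a : ℤ) + ((q : ℤ) - p)) := by
    have h5 : ((((m : ℤ) + 1 : ℤ) : K)) = (((a : ℤ) * ((a : ℤ) + ((q : ℤ) - p)) : ℤ) : K) := by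
      push_cast
      push_cast at heq
      linear_combination heq
    exact_mod_cast h5
  have hap : p + 1 ≤ a := by
    by_contra hlt
    have h5 : (a : ℤ) ≤ p := by
      have : a ≤ p := by omega
      exact_mod_cast this
    have h6 : (1 : ℤ) ≤ a := by exact_mod_cast ha1
    have h7 : (((p + 1) * (q + 1) : ℕ) : ℤ) ≤ (m : ℤ) + 1 := by exact_mod_cast hge
    push_cast at h7
    have h8 : (0 : ℤ) ≤ q := by positivity
    nlinarith
  obtain ⟨k, rfl⟩ : ∃ k, a = p + 1 + k := ⟨a - (p + 1), by omega⟩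
  refine ⟨k, fun n => ?_⟩
  rw [hiff]
  have h9 : m + 1 = (p + 1 + k) * (q + 1 + k) := by
    have : ((m : ℤ) + 1) = ((p : ℤ) + 1 + k) * ((q : ℤ) + 1 + k) := by
      rw [hz]
      push_cast
      ring
    exact_mod_cast this
  rw [h9]

end T7n
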