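import Pool.Agent.W_868bb7_h94.NoMixed

set_option autoImplicit false

/-!
# Rows: an invariant vector for at most `p + 1` blocks in a space of star functions
-/

namespace T7n

open Equiv Pool.Agent.W_868bb7_h94 Pool.Agent.W_MP_868bb7_ag

/-- invariance under the transpositions inside the blocks gives invariance under the block group -/
theorem inv_of_swaps {α S M : Type*} [Fintype α] [DecidableEq α] (b : α → S) (f : Perm α → M)
    (hf : ∀ i j, i ≠ j → b i = b j → ∀ g, f (swap i j * g) = f g) (s : Perm α)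
    (hs : ∀ i, b (s i) = b i) (g : Perm α) : f (s * g) = f g := by
  induction hn : s.support.card using Nat.strong_induction_on generalizing s with
  | _ n ih =>
    by_cases h : ∃ i, s i ≠ i
    · obtain ⟨i, hi⟩ := h
      have h1 : s = swap i (s i) * (swap i (s i) * s) := by
        rw [← mul_assoc, swap_mul_self, one_mul]
      have h2 : (swap i (s i) * s).support.card < n := by
        rw [← hn]
        exact Perm.card_support_swap_mul hi
      have h3 : ∀ j, b ((swap i (s i) * s) j) = b j := by
        intro j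
        rw [Perm.mul_apply]
        by_cases h4 : s j = i
        · rw [h4, swap_apply_left, hs, ← h4, hs]
        · by_cases h5 : s j = s i
          · rw [h5, swap_apply_right, s.injective h5]
          · rw [swap_apply_of_ne_of_ne h4 h5, hs]
      rw [h1, mul_assoc, hf i (s i) (fun h4 => hi h4.symm) (hs i).symm]
      exact ih _ h2 _ h3 rfl
    · push Not at h
      have h1 : s = 1 := Equiv.ext h
      rw [h1, one_mul]

variable {K : Type*} [Field K]

theorem Rows_top {n L : ℕ} {c : K} {x : G n → K} (hx : Star c x)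
    {col : Fin n → ℕ} (hcol : ∀ j, col j ≤ L) {k : Fin n} (hk : col k = L)
    (hs : IsSym false (cl col L) x)
    (h2 : ∀ l, l < L → ∀ g : G n, ∑ j ∈ cl col l, x (swap j k * g) = - x g) (g : G n) :
    c * x g = (((cl col L).card - 1) - (L : K)) * x g := by
  have hkT : k ∈ cl col L := FlagEx_mem.2 hk
  rw [← hx k g]
  have h3 : ∑ j ∈ Finset.univ.erase k, x (swap j k * g) =
      ∑ l ∈ Finset.range (L + 1), ∑ j ∈ (Finset.univ.erase k).filter (fun j => col j = l),
        x (swap j k * g) := by
    rw [Finset.sum_fiberwise_of_maps_to]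
    intro j _
    rw [Finset.mem_range]
    have := hcol j
    omega
  rw [h3, Finset.sum_range_succ]
  have h4 : ∀ l ∈ Finset.range L, ∑ j ∈ (Finset.univ.erase k).filter (fun j => col j = l),
      x (swap j k * g) = - x g := by
    intro l hl
    rw [Finset.mem_range] at hl
    have h5 : (Finset.univ.erase k).filter (fun j => col j = l) = cl col l := by
      ext j
      rw [Finset.mem_filter, Finset.mem_erase, FlagEx_mem]
      refine ⟨fun h => h.2, fun h => ⟨⟨?_, Finset.mem_univ _⟩, h⟩⟩
      rintro rfl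
      omega
    rw [h5, h2 l hl g]
  have h6 : (Finset.univ.erase k).filter (fun j => col j = L) = (cl col L).erase k := by
    ext j
    rw [Finset.mem_filter, Finset.mem_erase, Finset.mem_erase, FlagEx_mem]
    exact ⟨fun h => ⟨h.1.1, h.2⟩, fun h => ⟨⟨h.1, Finset.mem_univ _⟩, h.2⟩⟩
  have h7 : ∀ j ∈ (cl col L).erase k, x (swap j k * g) = x g := by
    intro j hj
    rw [Finset.mem_erase] at hj
    have h8 := hs j hj.2 k hkT hj.1 g
    rw [h8]
    simp [cs]
  rw [Finset.sum_congr rfl h4, h6, Finset.sum_congr rfl h7, Finset.sum_const, Finset.sum_const,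
    Finset.card_erase_of_mem hkT, nsmul_eq_mul, nsmul_eq_mul, Finset.card_range,
    Nat.cast_sub (Finset.card_pos.2 ⟨k, hkT⟩), Nat.cast_one]
  ring

theorem exists_rows [CharZero K] (p q : ℕ) (V : Submodule K (G ((p + 1) * (q + 1)) → K))
    (hV : LStable V) (hst : ∀ x ∈ V, Star ((q : K) - p) x) (hne : V ≠ ⊥) :
    ∃ x ∈ V, x ≠ 0 ∧ ∃ b : Fin ((p + 1) * (q + 1)) → Fin (p + 1),
      ∀ s : G ((p + 1) * (q + 1)), (∀ i, b (s i) = b i) → ∀ g, x (s * g) = x g := by
  obtain ⟨x0, hx0, hx0'⟩ := Submodule.exists_mem_ne_zero_of_ne_bot hne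
  obtain ⟨col, y, hcol, hy, hy0, hsym, h2, h3⟩ := flag_exists V hV (fun _ => false)
    ((p + 1) * (q + 1)) (fun j => j.val) (fun j => j.isLt) x0 hx0 hx0' (by
      intro l j hj k hk hjk g
      exfalso
      apply hjk
      rw [FlagEx_mem] at hj hk
      exact Fin.ext (hj.trans hk.symm))
  have hn : 0 < (p + 1) * (q + 1) := Nat.mul_pos (Nat.succ_pos _) (Nat.succ_pos _)
  obtain ⟨k, -, hk⟩ := Finset.exists_max_image Finset.univ col
    ⟨(⟨0, hn⟩ : Fin ((p + 1) * (q + 1))), Finset.mem_univ _⟩
  obtain ⟨g, hg⟩ : ∃ g, y g ≠ 0 := by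
    by_contra h
    push Not at h
    exact hy0 (funext h)
  have hc : ((cs false : ℤ) : K) = 1 := by
    show ((1 : ℤ) : K) = 1
    exact Int.cast_one
  have h2' : ∀ (k : Fin ((p + 1) * (q + 1))) (l : ℕ), l < col k → ∀ g,
      ∑ j ∈ cl col l, y (swap j k * g) = - y g := by
    intro k l hl g
    rw [h2 k l hl g, hc]
    ring
  have h4 := Rows_top (hst y hy) (fun j => hk j (Finset.mem_univ j)) rfl (hsym (col k))
    (fun l hl g => h2' k l hl g) g
  have h5 := mul_right_cancel₀ hg h4
  have h6 := count_eq false col y ((q : K) - p) hy0 (hst y hy) (hsym 0) (fun k hk' g => h2 k 0 hk' g)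
  have h7 : (cl col 0).card ≤ q + 1 := by
    refine card_le_of_lt (K := K) _ q p ((p + 1) * (q + 1)) ?_ (by nlinarith)
    rw [h6, hc]
    ring
  have hkT : k ∈ cl col (col k) := FlagEx_mem.2 rfl
  have hkc := Finset.card_pos.2 ⟨k, hkT⟩
  have h8 : (cl col (col k)).card ≤ q + 1 := by
    rcases Nat.eq_zero_or_pos (col k) with h0 | h0
    · rw [h0]
      exact h7
    · exact (h3 0 (col k) h0 (hcol k) rfl).trans h7
  have h9 : (((col k) + 1 + q : ℕ) : K) = (((cl col (col k)).card + p : ℕ) : K) := by
    push_cast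
    linear_combination h5
  have h10 : (col k) + 1 + q = (cl col (col k)).card + p := Nat.cast_injective h9
  have h11 : ∀ j, col j < p + 1 := by
    intro j
    have := hk j (Finset.mem_univ j)
    omega
  refine ⟨y, hy, hy0, fun j => ⟨col j, h11 j⟩, ?_⟩
  intro s hs g
  refine inv_of_swaps (fun j => (⟨col j, h11 j⟩ : Fin (p + 1))) y ?_ s hs g
  intro i j hij hb g
  have h12 : col i = col j := congrArg Fin.val hb
  have h13 := hsym (col j) i (FlagEx_mem.2 h12) j (FlagEx_mem.2 rfl) hij g
  rw [h13, hc, one_mul]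

end T7n
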